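import Pool.Agent.P8H36.JT.Ends

/-! The degree of the field extension given by a pair. -/

set_option autoImplicit false
set_option linter.unusedSectionVars false
set_option linter.unusedSimpArgs false

namespace Pool.Agent.P8H36.JT

open MvPolynomial Pool.Agent.TH207.Ser Pool.Agent.TH207.Tz

section indep

variable {k : Type*} [Field k] [CharZero k]

/-- The elements which are linearly independent over the field generated by the pair. -/
noncomputable def Tk (b : ℕ) (F G : MvPolynomial (Fin 2) k) (i : ℕ) : MvPolynomial (Fin 2) k :=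
  (F * pderiv 1 G) ^ i * (pderiv 1 F * G) ^ (b - 1 - i)

theorem aeval_sum (F G P : MvPolynomial (Fin 2) k) : aeval ![F, G] P =
    ∑ m ∈ P.support, C (coeff m P) * (F ^ m 0 * G ^ m 1) := by
  conv_lhs => rw [P.as_sum, map_sum]
  apply Finset.sum_congr rfl
  intro m _
  rw [aeval_monomial, Finsupp.prod_fintype _ _ (fun i => pow_zero _), Fin.prod_univ_two]
  rfl

theorem arith {a b H : ℕ} (hcop : Nat.Coprime a b) (hH : 0 < H) (ha : 0 < a) {i j x y x' y' : ℕ}
    (hi : i < b) (hj : j < b) (h1 : (x : ℤ) * (a * H) + y * (b * H) = x' * (a * H) + y' * (b * H))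
    (h2 : x + i = x' + j) : i = j ∧ x = x' ∧ y = y' := by
  have hHz : (H : ℤ) ≠ 0 := by exact_mod_cast hH.ne'
  have haz : (a : ℤ) ≠ 0 := by exact_mod_cast ha.ne'
  have h3 : (a : ℤ) * (x - x') = b * (y' - y) := by
    apply mul_left_cancel₀ hHz
    linear_combination h1
  have h4 : (b : ℤ) ∣ (x : ℤ) - x' := by
    have h5 : (b : ℤ) ∣ a * ((x : ℤ) - x') := ⟨_, h3⟩
    exact (Nat.isCoprime_iff_coprime.2 hcop.symm).dvd_of_dvd_mul_left h5
  have h5 : (x : ℤ) - x' = j - i := by
    have : (x : ℤ) + i = x' + j := by exact_mod_cast h2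
    linarith
  rw [h5] at h4
  have h6 : (j : ℤ) - i = 0 := by
    apply Int.eq_zero_of_abs_lt_dvd h4
    rw [abs_lt]
    constructor <;> omega
  have h7 : i = j := by omega
  have h8 : x = x' := by omega
  refine ⟨h7, h8, ?_⟩
  have hb : (b : ℤ) ≠ 0 := by
    have : 0 < b := by omega
    exact_mod_cast this.ne'
  have h9 : (b : ℤ) * (y' - y) = 0 := by
    rw [← h3, h8]; ring
  have := (mul_eq_zero.1 h9).resolve_left hb
  omega

theorem indep_poly {a b : ℕ} (hcop : Nat.Coprime a b) (ha : 0 < a) {F G : MvPolynomial (Fin 2) k}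
    {S : MvPolynomial (Fin 2) k →ₐ[k] MvPolynomial (Fin 2) k} {L ρ σ H : ℕ} {z : k}
    (hS : S (X 0) = X 0 ^ L) (hH : 0 < H) (v1 : Vl S L ρ σ z F (a * H) 1)
    (v2 : Vl S L ρ σ z G (b * H) 0) (v3 : Vl S L ρ σ z (pderiv 1 F) (a * H + σ) 0)
    (v4 : Vl S L ρ σ z (pderiv 1 G) (b * H + σ) 0) (P : Fin b → MvPolynomial (Fin 2) k)
    (h : ∑ i, aeval ![F, G] (P i) * Tk b F G i = 0) : ∀ i, P i = 0 := by
  by_contra hcon
  push Not at hcon
  obtain ⟨i0, hi0⟩ := hcon
  obtain ⟨m0, hm0⟩ : (P i0).support.Nonempty := by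
    rw [Finset.nonempty_iff_ne_empty, Ne, support_eq_empty]; exact hi0
  have hne : (Finset.univ.sigma (fun i => (P i).support)).Nonempty :=
    ⟨⟨i0, m0⟩, by simp only [Finset.mem_sigma, Finset.mem_univ, true_and]; exact hm0⟩
  refine Vl.sum_ne (ρ := ρ) (σ := σ) (z := z) (ι := Σ _ : Fin b, (Fin 2 →₀ ℕ)) hS hne
    (α := fun j => coeff j.2 (P j.1)) (P := fun j => (F ^ j.2 0 * G ^ j.2 1) * Tk b F G j.1)
    (x := fun j => ((j.2 0 : ℤ) * (a * H) + j.2 1 * (b * H)) + (b - 1) * (a * H + b * H + σ))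
    (v := fun j => j.2 0 + j.1) ?_ ?_ ?_ ?_
  · rintro ⟨i, m⟩ hj
    simp only [Finset.mem_sigma, Finset.mem_univ, true_and] at hj
    exact mem_support_iff.1 hj
  · rintro ⟨i, m⟩
    have h1 := (((v1.pow (m 0)).mul (v2.pow (m 1))).mul
      (((v1.mul v4).pow (i : ℕ)).mul ((v3.mul v2).pow (b - 1 - i))))
    have e1 : ((m 0 : ℤ) * (a * H) + m 1 * (b * H)) +
        (((i : ℕ) : ℤ) * (a * H + (b * H + σ)) + ((b - 1 - i : ℕ) : ℤ) * (a * H + σ + b * H)) =
        ((m 0 : ℤ) * (a * H) + m 1 * (b * H)) + (b - 1) * (a * H + b * H + σ) := by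
      have hi : (i : ℕ) ≤ b - 1 := by have := i.2; omega
      have hb : 1 ≤ b := by have := i.2; omega
      rw [Nat.cast_sub hi, Nat.cast_sub hb]
      push_cast; ring
    have e2 : m 0 * 1 + m 1 * 0 + ((i : ℕ) * (1 + 0) + (b - 1 - i) * (0 + 0)) = m 0 + i := by ring
    rw [e1, e2] at h1
    exact h1
  · rintro ⟨i, m⟩ _ ⟨j, m'⟩ _ e1 e2
    obtain ⟨g1, g2, g3⟩ := arith (H := H) hcop hH ha i.2 j.2 (add_right_cancel e1) e2
    have g4 : i = j := Fin.ext g1
    have g5 : m = m' := fin2_ext g2 g3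
    subst g4 g5
    rfl
  · rw [Finset.sum_sigma, ← h]
    apply Finset.sum_congr rfl
    intro i _
    rw [aeval_sum, Finset.sum_mul]
    apply Finset.sum_congr rfl
    intro m _
    ring

end indep

section rank

/-- The degree of `ℂ(x, y)` over `ℂ(F, G)`. -/
theorem rank_ge {b : ℕ} {F G : MvPolynomial (Fin 2) ℂ} (T : Fin b → MvPolynomial (Fin 2) ℂ)
    (h : ∀ P : Fin b → MvPolynomial (Fin 2) ℂ, ∑ i, aeval ![F, G] (P i) * T i = 0 →
      ∀ i, P i = 0) :
    (b : Cardinal) ≤ Module.rank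
      (IntermediateField.adjoin ℂ ({algebraMap (MvPolynomial (Fin 2) ℂ)
          (FractionRing (MvPolynomial (Fin 2) ℂ)) F, algebraMap (MvPolynomial (Fin 2) ℂ)
          (FractionRing (MvPolynomial (Fin 2) ℂ)) G} :
            Set (FractionRing (MvPolynomial (Fin 2) ℂ))))
      (FractionRing (MvPolynomial (Fin 2) ℂ)) := by
  let R := MvPolynomial (Fin 2) ℂ
  let Q := FractionRing R
  let ι := algebraMap R Q
  have hι : Function.Injective ι := IsFractionRing.injective R Q
  let s : Set Q := {ι F, ι G}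
  have hs : s = Set.range ![ι F, ι G] := by
    ext x
    simp only [s, Set.mem_insert_iff, Set.mem_singleton_iff, Set.mem_range, Fin.exists_fin_two,
      Matrix.cons_val_zero, Matrix.cons_val_one]
    constructor <;> rintro (h | h) <;> simp [h]
  open scoped IntermediateField.algebraAdjoinAdjoin in
  have hli : LinearIndependent (IntermediateField.adjoin ℂ s) (fun i : Fin b => ι (T i)) := by
    rw [← LinearIndependent.iff_fractionRing (R := Algebra.adjoin ℂ s)]
    rw [Fintype.linearIndependent_iff]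
    intro g hg
    have h0 : ∀ x ∈ Algebra.adjoin ℂ s, ∃ P : R, ι (aeval ![F, G] P) = x := by
      intro x h2
      rw [hs, Algebra.adjoin_range_eq_range_aeval] at h2
      obtain ⟨P, hP⟩ := h2
      refine ⟨P, ?_⟩
      rw [← hP]
      have h3 : ∀ P : R, ι (aeval ![F, G] P) = aeval ![ι F, ι G] P := by
        intro P
        have e1 : (![ι F, ι G] : Fin 2 → Q) = fun i => ι (![F, G] i) := by
          funext i
          fin_cases i <;> rfl
        rw [e1]
        exact (MvPolynomial.aeval_algebraMap_apply Q ![F, G] P).symm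
      exact h3 P
    have h1 : ∀ i, ∃ P : R, ι (aeval ![F, G] P) = (g i : Q) := fun i => h0 _ (g i).2
    choose P hP using h1
    have h2 : ∑ i, aeval ![F, G] (P i) * T i = 0 := by
      apply hι
      rw [map_sum, map_zero, ← hg]
      apply Finset.sum_congr rfl
      intro i _
      rw [map_mul, hP i, Algebra.smul_def]
      rfl
    intro i
    have h3 := h P h2 i
    apply Subtype.ext
    rw [← hP i, h3, map_zero, map_zero]
    rfl
  have h5 := hli.cardinal_le_rank
  rw [Cardinal.mk_fin] at h5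
  exact h5

end rank

end Pool.Agent.P8H36.JT
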