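import Pool.Agent.P8H36.JT.Val

/-! The values of the components and of their derivatives at a terminal direction. -/

set_option autoImplicit false
set_option linter.unusedSectionVars false
set_option linter.unusedSimpArgs false

namespace Pool.Agent.P8H36.JT

open MvPolynomial Pool.Agent.TH207.Ser

variable {k : Type*} [Field k] [CharZero k]

theorem N_pd (ρ σ : ℕ) (F : MvPolynomial (Fin 2) k) :
    (∀ n, (N ρ σ (pderiv 1 F)).coeff n =
      Polynomial.derivative ((N ρ σ F).coeff (σ + n))) ∧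
    (∀ n < σ, Polynomial.derivative ((N ρ σ F).coeff n) = 0) := by
  let Q := FractionRing (Polynomial k)
  have hQ : CharZero Q := charZero_of_injective_algebraMap (R := Polynomial k)
    (IsFractionRing.injective (Polynomial k) Q)
  obtain ⟨δ, hδ⟩ := exists_der k Q
  have hinj := IsFractionRing.injective (Polynomial k) Q
  have h1 := pd_pr (Q := Q) δ hδ ρ σ F
  constructor
  · intro n
    have h2 := congrArg (PowerSeries.coeff (σ + n)) h1
    rw [coeff_pd, coeff_pr, hδ, PowerSeries.coeff_X_pow_mul', if_pos (Nat.le_add_right _ _),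
      Nat.add_sub_cancel_left, coeff_pr] at h2
    exact (hinj h2).symm
  · intro n hn
    have h2 := congrArg (PowerSeries.coeff n) h1
    rw [coeff_pd, coeff_pr, hδ, PowerSeries.coeff_X_pow_mul', if_neg (by omega)] at h2
    exact hinj (h2.trans (map_zero _).symm)

/-- The relation of the leading forms at a terminal direction. -/
theorem term_eq [IsAlgClosed k] {ρ σ : ℕ} {D d : ℤ} {e : ℕ} {c : k}
    {F G : MvPolynomial (Fin 2) k} (hB : Bk D d F G = C c * X 0 ^ e) {mF mG : ℕ}
    (hF : ∀ m, coeff m F ≠ 0 → mF ≤ ρ * m 0 + σ * m 1)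
    (hG : ∀ m, coeff m G ≠ 0 → mG ≤ ρ * m 0 + σ * m 1) (hmm : mF + mG = σ + ρ * e) :
    ((ρ * D - mF : ℤ) : Polynomial k) * (N ρ σ F).coeff mF *
      Polynomial.derivative ((N ρ σ G).coeff mG) -
      ((ρ * d - mG : ℤ) : Polynomial k) * Polynomial.derivative ((N ρ σ F).coeff mF) *
        (N ρ σ G).coeff mG = Polynomial.C ((ρ : k) * c) := by
  let Q := FractionRing (Polynomial k)
  have hQ : CharZero Q := charZero_of_injective_algebraMap (R := Polynomial k)
    (IsFractionRing.injective (Polynomial k) Q)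
  obtain ⟨δ, hδ⟩ := exists_der k Q
  have hinj := IsFractionRing.injective (Polynomial k) Q
  obtain ⟨P, hP, hP0⟩ := pr_split Q hF
  obtain ⟨R, hR, hR0⟩ := pr_split Q hG
  obtain ⟨cQ, hcQ⟩ : ∃ cQ : Q, cQ = algebraMap (Polynomial k) Q (Polynomial.C ((ρ : k) * c)) :=
    ⟨_, rfl⟩
  have h1 : Br δ (ρ * D) (ρ * d) (pr Q ρ σ F) (pr Q ρ σ G) =
      PowerSeries.C cQ * PowerSeries.X ^ (σ + ρ * e) := by
    rw [Br_pr δ hδ, hB, map_mul, map_pow, pr_C, pr_X0, hcQ, map_mul, pow_add, pow_mul]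
    simp only [map_mul, map_natCast]
    ring
  have h3 : PowerSeries.X ^ (mF + mG) * Br δ (ρ * D - mF) (ρ * d - mG) P R =
      PowerSeries.C cQ * PowerSeries.X ^ (σ + ρ * e) := by
    rw [← h1, hP, hR, Br_Xn, Br_Xn', pow_add]
    ring
  have h6 : Br δ (ρ * D - mF) (ρ * d - mG) P R = PowerSeries.C cQ := by
    have hX : (PowerSeries.X : PowerSeries Q) ≠ 0 := PowerSeries.X_ne_zero
    apply mul_left_cancel₀ (pow_ne_zero (mF + mG) hX)
    rw [h3, hmm]; ring
  have h7 := congrArg (PowerSeries.constantCoeff (R := Q)) h6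
  rw [const_Br, hP0, hR0, hδ, hδ, PowerSeries.constantCoeff_C, hcQ] at h7
  apply hinj
  rw [← h7]
  simp only [map_sub, map_mul, map_intCast]

/-- A root of `f` at which the derivative of `g` does not vanish. -/
theorem exists_pt [IsAlgClosed k] {x y : ℕ} (hy : 0 < y) {f g : Polynomial k} {c : k} (hc : c ≠ 0)
    (h : (x : Polynomial k) * f * Polynomial.derivative g -
      (y : Polynomial k) * Polynomial.derivative f * g = Polynomial.C c)
    (hf : 2 ≤ f.natDegree) :
    ∃ z, f.eval z = 0 ∧ (Polynomial.derivative f).eval z ≠ 0 ∧ g.eval z ≠ 0 ∧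
      (Polynomial.derivative g).eval z ≠ 0 := by
  have hyk : (y : k) ≠ 0 := by exact_mod_cast hy.ne'
  have hf0 : f ≠ 0 := by rintro rfl; simp at hf
  have key : ∀ z, f.eval z = 0 → (Polynomial.derivative f).eval z ≠ 0 ∧ g.eval z ≠ 0 := by
    intro z hz
    have h1 := congrArg (Polynomial.eval z) h
    simp only [Polynomial.eval_sub, Polynomial.eval_mul, hz, Polynomial.eval_natCast,
      Polynomial.eval_C, mul_zero, zero_mul, zero_sub] at h1
    refine ⟨fun h2 => hc ?_, fun h2 => hc ?_⟩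
    · rw [← h1, h2]; ring
    · rw [← h1, h2]; ring
  by_contra hcon
  push Not at hcon
  have h2 : ∀ z, f.eval z = 0 →
      (Polynomial.derivative (Polynomial.derivative f)).eval z = 0 := by
    intro z hz
    obtain ⟨h3, h4⟩ := key z hz
    have h5 := hcon z hz h3 h4
    have h6 := congrArg (fun p => Polynomial.eval z (Polynomial.derivative p)) h
    simp only [Polynomial.derivative_sub, Polynomial.derivative_mul, Polynomial.derivative_natCast,
      Polynomial.derivative_C, Polynomial.eval_sub, Polynomial.eval_add, Polynomial.eval_mul,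
      Polynomial.eval_zero, Polynomial.eval_natCast, hz, h5] at h6
    have h7 : (y : k) * ((Polynomial.derivative (Polynomial.derivative f)).eval z * g.eval z) = 0 := by
      linear_combination -h6
    exact (mul_eq_zero.1 ((mul_eq_zero.1 h7).resolve_left hyk)).resolve_right h4
  have hd1 : Polynomial.derivative f ≠ 0 := by
    intro h3
    have := Polynomial.derivative_eq_zero.1 h3
    omega
  have hdeg1 : (Polynomial.derivative f).natDegree < f.natDegree :=
    Polynomial.natDegree_derivative_lt (by omega)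
  have hnd : f.roots.Nodup := by
    rw [Polynomial.nodup_roots_iff_of_splits hf0 (IsAlgClosed.splits f)]
    rw [Polynomial.separable_def]
    have hu : IsCoprime f (Polynomial.derivative f) := by
      refine ⟨Polynomial.C c⁻¹ * ((x : Polynomial k) * Polynomial.derivative g),
        -Polynomial.C c⁻¹ * ((y : Polynomial k) * g), ?_⟩
      have h8 : Polynomial.C c⁻¹ * Polynomial.C c = (1 : Polynomial k) := by
        rw [← map_mul, inv_mul_cancel₀ hc, map_one]
      rw [← h8, ← h]; ring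
    exact hu
  have hcard : f.roots.card = f.natDegree := by
    exact (Polynomial.splits_iff_card_roots.1 (IsAlgClosed.splits f))
  have hd2 : Polynomial.derivative (Polynomial.derivative f) ≠ 0 := by
    intro h3
    have h4 := Polynomial.derivative_eq_zero.1 h3
    have h5 : (Polynomial.derivative f).degree = (f.natDegree - 1 : ℕ) :=
      Polynomial.degree_derivative (by omega)
    have h6 : (Polynomial.derivative f).natDegree = f.natDegree - 1 :=
      Polynomial.natDegree_eq_of_degree_eq_some h5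
    omega
  have hle : f.roots ≤ (Polynomial.derivative (Polynomial.derivative f)).roots := by
    rw [Multiset.le_iff_subset hnd]
    intro z hz
    rw [Polynomial.mem_roots hf0] at hz
    rw [Polynomial.mem_roots hd2]
    exact h2 z hz
  have h8 := Multiset.card_le_card hle
  have h9 := Polynomial.card_roots' (Polynomial.derivative (Polynomial.derivative f))
  have h10 := Polynomial.natDegree_derivative_le (Polynomial.derivative f)
  omega

theorem comp_shift (p : Polynomial k) (z : k) :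
    (Polynomial.compRingHom (Polynomial.X + Polynomial.C z) p).coeff 0 = p.eval z := by
  rw [Polynomial.coe_compRingHom_apply, Polynomial.coeff_zero_eq_eval_zero, Polynomial.eval_comp]
  simp

theorem comp_root {p : Polynomial k} {z : k} (h0 : p.eval z = 0)
    (h1 : (Polynomial.derivative p).eval z ≠ 0) :
    ∃ q, Polynomial.compRingHom (Polynomial.X + Polynomial.C z) p = Polynomial.X ^ 1 * q ∧
      q.coeff 0 ≠ 0 := by
  obtain ⟨p1, hp1⟩ := Polynomial.dvd_iff_isRoot.2 h0
  refine ⟨Polynomial.compRingHom (Polynomial.X + Polynomial.C z) p1, ?_, ?_⟩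
  · rw [hp1, map_mul, Polynomial.coe_compRingHom_apply (p := Polynomial.X - Polynomial.C z)]
    simp
  · rw [comp_shift]
    rw [hp1, Polynomial.derivative_mul, Polynomial.eval_add, Polynomial.eval_mul,
      Polynomial.eval_mul] at h1
    simpa using h1

theorem Ph_coeff {S : MvPolynomial (Fin 2) k →ₐ[k] MvPolynomial (Fin 2) k} {ρ σ : ℕ} {z : k}
    (D : ℕ) (P : MvPolynomial (Fin 2) k) (n : ℕ) : (Ph S ρ σ z D P).coeff n =
      Polynomial.compRingHom (Polynomial.X + Polynomial.C z) ((N ρ σ (S (W D 0 P))).coeff n) := by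
  unfold Ph
  rw [Polynomial.coe_mapRingHom, Polynomial.coeff_map]

/-- The values of the derivative. -/
theorem Vl_pd {S : MvPolynomial (Fin 2) k →ₐ[k] MvPolynomial (Fin 2) k} {L ρ σ : ℕ} {z : k}
    (hS : ∀ P, pderiv 1 (S P) = S (pderiv 1 P)) {D : ℕ} {P : MvPolynomial (Fin 2) k}
    (hP : Le D 0 P) {m : ℕ} (hm : ∀ n < m, (N ρ σ (S (W D 0 P))).coeff n = 0)
    (h : (Polynomial.derivative ((N ρ σ (S (W D 0 P))).coeff m)).eval z ≠ 0) :
    Vl S L ρ σ z (pderiv 1 P) (ρ * L * D - m + σ) 0 := by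
  have hσ : σ ≤ m := by
    by_contra hlt
    push Not at hlt
    apply h
    rw [(N_pd ρ σ _).2 m hlt, Polynomial.eval_zero]
  have hN : ∀ n, (N ρ σ (S (W D 0 (pderiv 1 P)))).coeff n =
      Polynomial.derivative ((N ρ σ (S (W D 0 P))).coeff (σ + n)) := by
    intro n
    rw [← (N_pd ρ σ _).1 n, hS, W_pd hP, Nat.sub_zero]
  have hLe : Le D 0 (pderiv 1 P) := Le_pd hP
  refine ⟨D, hLe, m - σ, Tm.of ?_ ?_, ?_⟩
  · intro n hn
    rw [Ph_coeff, hN, hm _ (by omega)]
    simp
  · rw [Ph_coeff, hN, Nat.add_sub_cancel' hσ]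
    refine ⟨_, by rw [pow_zero, one_mul], ?_⟩
    rw [comp_shift]
    exact h
  · rw [Nat.cast_sub hσ]; ring

theorem ends [IsAlgClosed k] {a b D0 d0 : ℕ} (ha : 2 ≤ a) (hb : 0 < b)
    {F G : MvPolynomial (Fin 2) k} (hF : Le D0 0 F) (hG : Le d0 0 G)
    (h : Te a b D0 d0 (W D0 0 F) (W d0 0 G)) :
    ∃ (S : MvPolynomial (Fin 2) k →ₐ[k] MvPolynomial (Fin 2) k) (L ρ σ H : ℕ) (z : k),
      S (X 0) = X 0 ^ L ∧ 0 < H ∧ Vl S L ρ σ z F (a * H) 1 ∧ Vl S L ρ σ z G (b * H) 0 ∧
      Vl S L ρ σ z (pderiv 1 F) (a * H + σ) 0 ∧ Vl S L ρ σ z (pderiv 1 G) (b * H + σ) 0 := by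
  obtain ⟨S, L, h1, h2, e, c, ρ0, σ0, A, n, iF, iG, ρ, σ, K, H, h3, h4, h5⟩ := h
  obtain ⟨f, hf⟩ : ∃ f, f = (N ρ σ (S (W D0 0 F))).coeff (ρ * iF + σ * (a * n)) := ⟨_, rfl⟩
  obtain ⟨g, hg⟩ : ∃ g, g = (N ρ σ (S (W d0 0 G))).coeff (ρ * iG + σ * (b * n)) := ⟨_, rfl⟩
  have hfd : f.natDegree = a * n := by rw [hf]; exact (natDegree_N h4.hρ h4.hF).2
  have hT : ((a : ℤ) + b) * H = K := by exact_mod_cast h5
  have hdiff := h4.hdiff
  rw [hT, sub_self] at hdiff
  have hmm : ρ * iF + σ * (a * n) + (ρ * iG + σ * (b * n)) = σ + ρ * e := by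
    zify; linarith
  have heq := term_eq h3.hB h4.hF.le h4.hG.le hmm
  have hD2 : (ρ : ℤ) * (L * D0) - ((ρ * iF + σ * (a * n) : ℕ) : ℤ) = ((a * H : ℕ) : ℤ) := by
    push_cast
    rw [h4.hH]
    linear_combination (ρ : ℤ) * h3.hD
  have hd2 : (ρ : ℤ) * (L * d0) - ((ρ * iG + σ * (b * n) : ℕ) : ℤ) = ((b * H : ℕ) : ℤ) := by
    push_cast
    rw [h4.hH]
    linear_combination (ρ : ℤ) * h3.hd
  rw [hD2, hd2, ← hf, ← hg] at heq
  simp only [Int.cast_natCast] at heq
  have hρk : (ρ : k) ≠ 0 := by exact_mod_cast h4.hρ.ne'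
  have han : 2 * 1 ≤ a * n := Nat.mul_le_mul ha h3.hn
  obtain ⟨z, z1, z2, z3, z4⟩ := exists_pt (Nat.mul_pos hb h4.hH0) (mul_ne_zero hρk h3.hc) heq
    (by rw [hfd]; omega)
  have bF := N_below h4.hF.le
  have bG := N_below h4.hG.le
  have hD3 : ((ρ : ℤ) * L * D0) - ((ρ * iF + σ * (a * n) : ℕ) : ℤ) = a * H := by
    have := hD2
    push_cast at this ⊢
    linarith
  have hd3 : ((ρ : ℤ) * L * d0) - ((ρ * iG + σ * (b * n) : ℕ) : ℤ) = b * H := by
    have := hd2
    push_cast at this ⊢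
    linarith
  refine ⟨S, L, ρ, σ, H, z, h1, h4.hH0, ?_, ?_, ?_, ?_⟩
  · refine ⟨D0, hF, _, Tm.of ?_ ?_, hD3.symm⟩
    · intro i hi
      rw [Ph_coeff, bF i hi, map_zero]
    · rw [Ph_coeff, ← hf]
      exact comp_root z1 z2
  · refine ⟨d0, hG, _, Tm.of ?_ ?_, hd3.symm⟩
    · intro i hi
      rw [Ph_coeff, bG i hi, map_zero]
    · rw [Ph_coeff, ← hg]
      refine ⟨_, by rw [pow_zero, one_mul], ?_⟩
      rw [comp_shift]
      exact z3
  · rw [← hD3]
    exact Vl_pd h2 hF bF (by rw [← hf]; exact z2)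
  · rw [← hd3]
    exact Vl_pd h2 hG bG (by rw [← hg]; exact z4)

end Pool.Agent.P8H36.JT
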