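import Pool.Agent.P8H36.JT.Lev

/-! The exceptional lines. -/

set_option autoImplicit false

namespace Pool.Agent.P8H36.JT

/-- Pairs `(a, b)` on one of the exceptional lines. -/
def Exc (p q : ℕ) : Set (ℕ × ℕ) :=
  {z | ∃ t v w : ℕ, 1 ≤ t ∧ 1 ≤ v ∧ 1 ≤ w ∧ v + 1 ≤ p ∧ v * t + w + 3 * p ≤ p ^ 2 + 1 ∧
    v * t + w + p + 1 ≤ q ∧
    (v * t * z.2 = w * z.1 + t ∨ v * t * z.1 = w * z.2 + t)}

theorem aux {x y ρ v u : ℕ} (hx : 2 ≤ x) (hy : 2 ≤ y) (hρ : ρ ∣ x) (hv : 1 ≤ v)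
    (h : v * (x + y) = ρ * u + 1) :
    ∃ t w : ℕ, 1 ≤ t ∧ 1 ≤ w ∧ v * t + w = u ∧ v * t * y = w * x + t := by
  obtain ⟨t, rfl⟩ := hρ
  have hρ0 : 0 < ρ := Nat.pos_of_ne_zero (by rintro rfl; simp at hx)
  have ht0 : 1 ≤ t := Nat.pos_of_ne_zero (by rintro rfl; simp at hx)
  have h1 : ρ * (v * t) < ρ * u := by
    have h2 : 1 * 2 ≤ v * y := Nat.mul_le_mul hv hy
    have h3 : v * (ρ * t + y) = ρ * (v * t) + v * y := by ring
    omega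
  have h2 : v * t < u := Nat.lt_of_mul_lt_mul_left h1
  obtain ⟨w, rfl⟩ : ∃ w, u = v * t + w := ⟨u - v * t, by omega⟩
  refine ⟨t, w, ht0, by omega, rfl, ?_⟩
  have h3 : v * y = ρ * w + 1 := by
    have h4 : v * (ρ * t + y) = ρ * (v * t) + v * y := by ring
    have h5 : ρ * (v * t + w) = ρ * (v * t) + ρ * w := by ring
    omega
  calc v * t * y = t * (v * y) := by ring
    _ = w * (ρ * t) + t := by rw [h3]; ring

theorem exc_of_Lv {a b p q : ℕ} (ha : 2 ≤ a) (hb : 2 ≤ b) (h : Lv a b p q) :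
    (a, b) ∈ Exc p q := by
  obtain ⟨V, U, ⟨ρ, v, u, h1, h2, h3, h4, h5⟩, k1, k2, k3⟩ := h
  have e1 : v + 1 ≤ p := by
    have : (v : ℤ) ≤ V := by exact_mod_cast h3
    have : (v : ℤ) + 1 ≤ p := by linarith
    exact_mod_cast this
  have e2 : u + 3 * p ≤ p ^ 2 + 1 := by
    have : (u : ℤ) ≤ U := by exact_mod_cast h4
    have : (u : ℤ) + 3 * p ≤ p ^ 2 + 1 := by linarith
    exact_mod_cast this
  have e3 : u + p + 1 ≤ q := by
    have : (u : ℤ) ≤ U := by exact_mod_cast h4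
    have : (u : ℤ) + p + 1 ≤ q := by linarith
    exact_mod_cast this
  rcases h1 with h1 | h1
  · obtain ⟨t, w, g1, g2, g3, g4⟩ := aux ha hb h1 h2 h5
    exact ⟨t, v, w, g1, h2, g2, e1, by omega, by omega, Or.inl g4⟩
  · obtain ⟨t, w, g1, g2, g3, g4⟩ := aux hb ha h1 h2 (by rw [← h5]; ring)
    exact ⟨t, v, w, g1, h2, g2, e1, by omega, by omega, Or.inr g4⟩

/-- The number of exceptional pairs for all `p ≤ P`. -/
theorem count (P X : ℕ) :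
    (({z : ℕ × ℕ | (∃ p q, p ≤ P ∧ z ∈ Exc p q) ∧ 2 ≤ z.1 ∧ z.1 < z.2 ∧ z.2 ≤ X}.ncard : ℕ) : ℝ) ≤
      2 * P ^ 4 * (1 + Real.log P) * X := by
  classical
  set T : Finset (Σ _ : ℕ, ℕ × ℕ × ℕ) := (Finset.Icc 1 P).sigma fun v =>
    Finset.Icc 1 (P ^ 2 / v) ×ˢ Finset.Icc 1 (P ^ 2) ×ˢ Finset.Icc 1 X with hT
  have hcard : (T.card : ℝ) ≤ P ^ 4 * (1 + Real.log P) * X := by
    rw [hT, Finset.card_sigma]
    simp only [Finset.card_product, Nat.card_Icc, Nat.add_sub_cancel]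
    rw [← Finset.sum_mul]
    push_cast
    have h1 : (∑ v ∈ Finset.Icc 1 P, ((P ^ 2 / v : ℕ) : ℝ)) ≤ P ^ 2 * (1 + Real.log P) := by
      calc (∑ v ∈ Finset.Icc 1 P, ((P ^ 2 / v : ℕ) : ℝ))
          ≤ ∑ v ∈ Finset.Icc 1 P, (P : ℝ) ^ 2 * ((v : ℝ)⁻¹) := by
            apply Finset.sum_le_sum
            intro v _
            refine Nat.cast_div_le.trans ?_
            rw [div_eq_mul_inv]
            push_cast
            exact le_rfl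
        _ = P ^ 2 * ((harmonic P : ℚ) : ℝ) := by
            rw [← Finset.mul_sum, harmonic_eq_sum_Icc]
            push_cast
            rfl
        _ ≤ P ^ 2 * (1 + Real.log P) :=
            mul_le_mul_of_nonneg_left (harmonic_le_one_add_log P) (by positivity)
    calc (∑ v ∈ Finset.Icc 1 P, ((P ^ 2 / v : ℕ) : ℝ)) * (P ^ 2 * X)
        ≤ (P ^ 2 * (1 + Real.log P)) * (P ^ 2 * X) :=
          mul_le_mul_of_nonneg_right h1 (by positivity)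
      _ = P ^ 4 * (1 + Real.log P) * X := by ring
  set f1 : (Σ _ : ℕ, ℕ × ℕ × ℕ) → ℕ × ℕ :=
    fun s => (s.2.2.2, (s.2.2.1 * s.2.2.2 + s.2.1) / (s.1 * s.2.1))
  set f2 : (Σ _ : ℕ, ℕ × ℕ × ℕ) → ℕ × ℕ :=
    fun s => ((s.2.2.1 * s.2.2.2 + s.2.1) / (s.1 * s.2.1), s.2.2.2)
  have hsub : {z : ℕ × ℕ | (∃ p q, p ≤ P ∧ z ∈ Exc p q) ∧ 2 ≤ z.1 ∧ z.1 < z.2 ∧ z.2 ≤ X} ⊆
      ((T.image f1 ∪ T.image f2 : Finset (ℕ × ℕ)) : Set (ℕ × ℕ)) := by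
    rintro ⟨a, b⟩ ⟨⟨p, q, hpP, t, v, w, h1, h2, h3, h4, h5, h6, h7⟩, h8, h9, h10⟩
    simp only at h7 h8 h9 h10
    have hvt : 0 < v * t := Nat.mul_pos h2 h1
    have hP2 : p ^ 2 ≤ P ^ 2 := Nat.pow_le_pow_left hpP 2
    have hmem : ∀ x, 1 ≤ x → x ≤ X → (⟨v, t, w, x⟩ : Σ _ : ℕ, ℕ × ℕ × ℕ) ∈ T := by
      intro x hx1 hx2
      simp only [hT, Finset.mem_sigma, Finset.mem_product, Finset.mem_Icc]
      refine ⟨⟨h2, by omega⟩, ⟨h1, ?_⟩, ⟨h3, by omega⟩, hx1, hx2⟩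
      rw [Nat.le_div_iff_mul_le h2, mul_comm]
      omega
    simp only [Finset.coe_union, Finset.coe_image, Set.mem_union, Set.mem_image, Finset.mem_coe]
    rcases h7 with h7 | h7
    · left
      refine ⟨⟨v, t, w, a⟩, hmem a (by omega) (by omega), ?_⟩
      simp only [f1]
      rw [← h7, Nat.mul_div_cancel_left _ hvt]
    · right
      refine ⟨⟨v, t, w, b⟩, hmem b (by omega) (by omega), ?_⟩
      simp only [f2]
      rw [← h7, Nat.mul_div_cancel_left _ hvt]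
  have h1 : {z : ℕ × ℕ | (∃ p q, p ≤ P ∧ z ∈ Exc p q) ∧ 2 ≤ z.1 ∧ z.1 < z.2 ∧ z.2 ≤ X}.ncard ≤
      T.card + T.card :=
    calc _ ≤ ((T.image f1 ∪ T.image f2 : Finset (ℕ × ℕ)) : Set (ℕ × ℕ)).ncard :=
          Set.ncard_le_ncard hsub (Finset.finite_toSet _)
      _ = (T.image f1 ∪ T.image f2).card := Set.ncard_coe_finset _
      _ ≤ (T.image f1).card + (T.image f2).card := Finset.card_union_le _ _
      _ ≤ T.card + T.card := add_le_add Finset.card_image_le Finset.card_image_le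
  have h2 : (({z : ℕ × ℕ | (∃ p q, p ≤ P ∧ z ∈ Exc p q) ∧ 2 ≤ z.1 ∧ z.1 < z.2 ∧
      z.2 ≤ X}.ncard : ℕ) : ℝ) ≤ T.card + T.card := by exact_mod_cast h1
  linarith

end Pool.Agent.P8H36.JT
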