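import Pool.Agent.P8H36.JT.Lev

/-! The distance from the diagonal of the vertices without denominators. -/

set_option autoImplicit false
set_option linter.unusedSectionVars false
set_option linter.unusedSimpArgs false

namespace Pool.Agent.P8H36.JT

open MvPolynomial Pool.Agent.TH207.Ser

theorem Rel.two {a b V U : ℕ} (ha : 2 ≤ a) (hb : 2 ≤ b) (h : Rel a b V U) : 2 ≤ U := by
  obtain ⟨ρ, v, u, h1, h2, _, h4, h5⟩ := h
  have h6 : ρ ≤ a ∨ ρ ≤ b := h1.imp (fun h => Nat.le_of_dvd (by omega) h)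
    (fun h => Nat.le_of_dvd (by omega) h)
  by_contra hcon
  have h7 : u ≤ 1 := by omega
  have h8 : ρ * u ≤ ρ * 1 := Nat.mul_le_mul_left _ h7
  have h9 : 1 * (a + b) ≤ v * (a + b) := Nat.mul_le_mul_right _ h2
  omega

section term

variable {k : Type*} [Field k] [CharZero k]
variable {a b : ℕ} {D d : ℤ} {e : ℕ} {c : k}
    {F G : MvPolynomial (Fin 2) k} {A : ℤ} {n iF iG : ℕ} {ρ σ K H : ℕ}

/-- At a terminal direction `u` is greater than `n`. -/
theorem term_gt (ha : 2 ≤ a) (hb : 2 ≤ b) (hn : 1 ≤ n) (hc : c ≠ 0)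
    (hB : Bk D d F G = C c * X 0 ^ e) (X1 : Nx a b D d e F G A n iF iG ρ σ K H)
    (hT : (a + b) * H = K) {u : ℕ} (hu : (u : ℤ) = (D + d - e) * n - A) :
    n < u := by
  have h1 := rho_dvd ha hb hn hc hB X1 hT
  have h2 := X1.hu
  rw [← hu] at h2
  have h3 : ρ * u + H = n * K := by zify; linarith
  rw [← hT] at h3
  have h6 : ρ ≤ a ∨ ρ ≤ b := h1.imp (fun h => Nat.le_of_dvd (by omega) h.1)
    (fun h => Nat.le_of_dvd (by omega) h.1)
  have hH := X1.hH0
  by_contra hcon
  have h7 : ρ * u ≤ ρ * n := Nat.mul_le_mul_left _ (by omega)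
  have h8 : n * ((a + b) * H) = n * a * H + n * b * H := by ring
  have h9 : n * 2 * H ≤ n * a * H := Nat.mul_le_mul_right _ (Nat.mul_le_mul_left _ ha)
  have h10 : n * 2 * H ≤ n * b * H := Nat.mul_le_mul_right _ (Nat.mul_le_mul_left _ hb)
  have h11 : 1 * 2 * H ≤ n * 2 * H := Nat.mul_le_mul_right _ (Nat.mul_le_mul_right _ hn)
  rcases h6 with h6 | h6
  · have h12 : ρ * n ≤ a * n := Nat.mul_le_mul_right _ h6
    have h13 : n * a * 1 ≤ n * a * H := Nat.mul_le_mul_left _ hH
    have h14 : a * n = n * a * 1 := by ring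
    omega
  · have h12 : ρ * n ≤ b * n := Nat.mul_le_mul_right _ h6
    have h13 : n * b * 1 ≤ n * b * H := Nat.mul_le_mul_left _ hH
    have h14 : b * n = n * b * 1 := by ring
    omega

end term

variable {k : Type*} [Field k] [CharZero k] [IsAlgClosed k]

/-- A vertex with `n ≥ 2` has `u ≥ 3`. -/
theorem tree3 {a b : ℕ} (ha : 2 ≤ a) (hb : 2 ≤ b) (hcop : Nat.Coprime a b) :
    ∀ (t : ℕ) {D d : ℤ} {e : ℕ} {c : k} {F G : MvPolynomial (Fin 2) k} {ρ0 σ0 : ℕ} {A : ℤ}
      {n iF iG u : ℕ}, St a b D d e c F G ρ0 σ0 A n iF iG → (u : ℤ) = (D + d - e) * n - A → 0 < u →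
      2 ≤ n → (D + d - e) * ρ0 - σ0 ≤ t * ρ0 → 3 ≤ u := by
  intro t
  induction t using Nat.strong_induction_on with
  | _ t iht =>
  intro D d e c F G ρ0 σ0 A n iF iG u S hu hu0 hn2 ht
  have huz : (0 : ℤ) < (D + d - e) * n - A := by rw [← hu]; exact_mod_cast hu0
  obtain ⟨ρ, σ, K, H, hlt, X1⟩ := exists_nx ha S huz
  have hKz : (0 : ℤ) < K := by exact_mod_cast X1.hK0
  have hHz : (0 : ℤ) < H := by exact_mod_cast X1.hH0
  have hρz : (0 : ℤ) < ρ := by exact_mod_cast X1.hρ
  have hmain : (ρ : ℤ) * u = n * K - H := by rw [hu]; exact X1.hu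
  rcases Nat.lt_or_ge K ((a + b) * H) with hT | hT
  · -- a non-terminal direction
    obtain ⟨f, g, h, c', Y⟩ := X1.form ha hcop S hT
    have h0 : H < n * K := by
      have h1 : (0 : ℤ) < ρ * u := mul_pos hρz (by exact_mod_cast hu0)
      zify; linarith
    obtain ⟨r, μ, h1, h2, h3, hμ⟩ := Y.root ha S.hn X1.hK0 h0
    have h3z : (H : ℤ) < μ * K := by exact_mod_cast h3
    by_cases hr : r = 0
    · subst hr
      obtain ⟨A', iF', iG', e1, _, S'⟩ := Y.step0 hcop S X1 hμ h1 h2
      have hμn : μ < n := by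
        have := Y.hz
        rw [h1] at this
        exact Nat.lt_of_mul_lt_mul_left this
      have hμnz : (μ : ℤ) < n := by exact_mod_cast hμn
      obtain ⟨uz, huz'⟩ : ∃ uz : ℤ, uz = (D + d - e) * μ - A' := ⟨_, rfl⟩
      have e2 : (ρ : ℤ) * uz = μ * K - H := by
        rw [huz', X1.hK]
        linear_combination -e1
      have e3 : 0 < uz := by
        have : (0 : ℤ) < ρ * uz := by rw [e2]; linarith
        exact pos_of_mul_pos_right this hρz.le
      have e4 : uz < u := by
        have h5 : (ρ : ℤ) * uz < ρ * u := by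
          rw [e2, hmain]
          have := mul_lt_mul_of_pos_right hμnz hKz
          linarith
        exact lt_of_mul_lt_mul_left h5 hρz.le
      obtain ⟨u', hu'⟩ := Int.eq_ofNat_of_zero_le e3.le
      subst hu'
      have h6 := tree ha hb hcop u' (D + d - e).toNat S' huz' (by exact_mod_cast e3) (by
        have h7 : D + d - e ≤ ((D + d - e).toNat : ℤ) := Int.self_le_toNat _
        have h8 := mul_le_mul_of_nonneg_right h7 hρz.le
        have h9 : (0 : ℤ) ≤ σ := by positivity
        linarith)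
      have h7 := h6.two ha hb
      have h8 : u' < u := by exact_mod_cast e4
      omega
    · obtain ⟨iF', iG', _, S'⟩ := Y.step1 S X1 hμ h1 h2
      have horb := orbit X1.hρ Y.hf0 Y.hres hr
      rw [h1, Y.hfd] at horb
      have hρμ : ρ * μ ≤ n := by
        have h4 : a * (ρ * μ) ≤ a * n := by
          calc a * (ρ * μ) = ρ * (a * μ) := by ring
            _ ≤ a * n := by omega
        exact Nat.le_of_mul_le_mul_left h4 (by omega)
      have hμn : μ ≤ n := le_trans (Nat.le_mul_of_pos_left _ X1.hρ) hρμ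
      have hρμz : (ρ : ℤ) * μ ≤ n := by exact_mod_cast hρμ
      obtain ⟨uz, huz'⟩ : ∃ uz : ℤ, uz = μ * K - H := ⟨_, rfl⟩
      have e3 : 0 < uz := by rw [huz']; linarith
      have hid : (ρ : ℤ) * (u - uz) = K * (n - ρ * μ) + (ρ - 1) * H := by
        rw [mul_sub, hmain, huz']; ring
      have e5 : (0 : ℤ) ≤ K * (n - ρ * μ) := mul_nonneg hKz.le (by linarith)
      have e6 : (0 : ℤ) ≤ (ρ - 1) * H := mul_nonneg (by linarith) hHz.le
      have e4 : uz ≤ u := by
        have h5 : (0 : ℤ) ≤ ρ * (u - uz) := by rw [hid]; linarith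
        have := nonneg_of_mul_nonneg_right h5 hρz
        linarith
      have hl : (ρ * D + ρ * d - ((ρ * e : ℕ) : ℤ)) = ρ * (D + d - e) := by push_cast; ring
      have hS' : uz = (ρ * D + ρ * d - ((ρ * e : ℕ) : ℤ)) * μ - (H + σ * μ) := by
        rw [hl, huz', X1.hK]; ring
      obtain ⟨u', hu'⟩ := Int.eq_ofNat_of_zero_le e3.le
      subst hu'
      rcases lt_or_eq_of_le e4 with h5 | h5
      · have h6 := tree ha hb hcop u'
          (ρ * D + ρ * d - ((ρ * e : ℕ) : ℤ)).toNat S' hS' (by exact_mod_cast e3) (by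
          have h7 := Int.self_le_toNat (ρ * D + ρ * d - ((ρ * e : ℕ) : ℤ))
          have h9 : (0 : ℤ) ≤ σ := by positivity
          push_cast at h7 ⊢
          linarith)
        have h7 := h6.two ha hb
        have h8 : u' < u := by exact_mod_cast h5
        omega
      · -- the trivial change of coordinates
        have h6 : (K : ℤ) * (n - ρ * μ) + (ρ - 1) * H = 0 := by
          rw [← hid, h5]; ring
        have h7 : (K : ℤ) * (n - ρ * μ) = 0 := by linarith
        have h8 : ((ρ : ℤ) - 1) * H = 0 := by linarith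
        have h9 : (ρ : ℤ) = 1 := by
          rcases mul_eq_zero.1 h8 with h | h <;> linarith
        have h10 : (n : ℤ) = μ := by
          rcases mul_eq_zero.1 h7 with h | h
          · linarith
          · rw [h9] at h; linarith
        have hρ1 : ρ = 1 := by exact_mod_cast h9
        have hnμ : n = μ := by exact_mod_cast h10
        subst hρ1 hnμ
        have hu'u : u' = u := by exact_mod_cast h5
        subst hu'u
        have hlpos : (0 : ℤ) < D + d - e - σ := by
          have := X1.hK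
          push_cast at this
          linarith
        obtain ⟨t', ht'⟩ := Int.eq_ofNat_of_zero_le hlpos.le
        have hρ0 : (0 : ℤ) < ρ0 := by exact_mod_cast S.hρ
        have hlt' : (σ0 : ℤ) < σ * ρ0 := by
          have : σ0 * 1 < σ * ρ0 := hlt
          exact_mod_cast (by omega : σ0 < σ * ρ0)
        have ht't : t' < t := by
          have h11 : (t' : ℤ) * ρ0 < t * ρ0 := by
            have : (t' : ℤ) = D + d - e - σ := ht'.symm
            rw [this]
            linarith
          exact_mod_cast lt_of_mul_lt_mul_right h11 hρ0.le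
        exact iht t' ht't S' hS' hu0 hn2 (by
          push_cast
          have : (t' : ℤ) = D + d - e - σ := ht'.symm
          linarith)
  · -- a terminal direction
    have hT' : (a + b) * H = K := le_antisymm hT X1.hle
    have := term_gt ha hb S.hn S.hc S.hB X1 hT' hu
    omega

/-- The arithmetic of an edge which crosses the diagonal. -/
theorem near_arith {ρ K H s σ : ℕ} {A n μ u' : ℤ} (hσ : 1 ≤ σ) (hK0 : 1 ≤ K)
    (hK : (K : ℤ) = ρ - σ) (hH : (ρ : ℤ) * A = H + σ * n)
    (htop : (H : ℤ) * (1 + ρ * s) = K * n) (hs : 1 ≤ s) (hρH : (ρ : ℤ) ≤ H)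
    (hμ : (ρ : ℤ) * μ ≤ n) (hu : u' = μ * K - H) (hu3 : 3 ≤ u') :
    2 * A ≤ (n - A) * (n - A - 1) := by
  have hρ : (0 : ℤ) < ρ := by
    have : (1 : ℤ) ≤ σ := by exact_mod_cast hσ
    have : (1 : ℤ) ≤ K := by exact_mod_cast hK0
    linarith
  have hσz : (1 : ℤ) ≤ σ := by exact_mod_cast hσ
  have hKz : (1 : ℤ) ≤ K := by exact_mod_cast hK0
  have hsz : (1 : ℤ) ≤ s := by exact_mod_cast hs
  have hd : n - A = H * s := by
    have h1 : (ρ : ℤ) * (n - A) = ρ * (H * s) := by
      rw [mul_sub, hH]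
      linear_combination (-1 : ℤ) * htop - n * hK
    exact mul_left_cancel₀ hρ.ne' h1
  have hKA : (K : ℤ) * A = H + σ * (H * s) := by
    rw [← hd, hK]
    linear_combination hH
  have hH0 : (0 : ℤ) < H := by linarith
  rw [hd]
  -- the bound for sigma
  have hσH : (σ : ℤ) ≤ H - K := by linarith
  have hHs : (0 : ℤ) < H * s := by positivity
  have h1 : (K : ℤ) * A ≤ H + (H - K) * (H * s) := by
    rw [hKA]
    have := mul_le_mul_of_nonneg_right hσH hHs.le
    linarith
  have hHHs : (H : ℤ) ≤ H * s := le_mul_of_one_le_right hH0.le hsz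
  rcases Nat.lt_or_ge 1 K with hK2 | hK2
  · -- `K ≥ 2`
    have hK2z : (2 : ℤ) ≤ K := by exact_mod_cast hK2
    have hA0 : 0 ≤ A := by
      have : (0 : ℤ) < K * A := by rw [hKA]; positivity
      exact (pos_of_mul_pos_right this (by linarith)).le
    have h2 : 2 * A ≤ K * A := mul_le_mul_of_nonneg_right hK2z hA0
    have h3 : ((H : ℤ) - K) * (H * s) ≤ (H * s - 2) * (H * s) :=
      mul_le_mul_of_nonneg_right (by linarith) hHs.le
    nlinarith
  · have hK1 : (K : ℤ) = 1 := by
      have : K = 1 := by omega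
      exact_mod_cast this
    rw [hK1, one_mul] at h1 hKA
    rw [hK1, mul_one] at hu
    rw [hK1, one_mul] at htop
    rcases Nat.lt_or_ge 1 s with hs2 | hs2
    · have hs2z : (2 : ℤ) ≤ s := by exact_mod_cast hs2
      have h2 : 2 * (H : ℤ) ≤ H * s := by nlinarith
      have h3 : 2 * (H : ℤ) * (H * s) ≤ (H * s) * (H * s) := mul_le_mul_of_nonneg_right h2 hHs.le
      nlinarith
    · have hs1 : (s : ℤ) = 1 := by
        have : s = 1 := by omega
        exact_mod_cast this
      rw [hs1, mul_one] at hKA htop ⊢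
      -- `ρ (H + 3) ≤ H (1 + ρ)`
      have h4 : 3 * (ρ : ℤ) ≤ H := by
        have h5 : (ρ : ℤ) * (H + 3) ≤ ρ * μ := mul_le_mul_of_nonneg_left (by linarith) hρ.le
        nlinarith
      have h6 : A = H * ρ := by
        have : (σ : ℤ) = ρ - 1 := by linarith
        rw [hKA, this]; ring
      have h7 : (2 : ℤ) ≤ ρ := by linarith
      rw [h6]
      nlinarith

/-- Vertices without denominators below the diagonal are far from it. -/
def Far (A n : ℤ) : Prop := 2 * A ≤ (n - A) * (n - A - 1)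

theorem far_level {a b : ℕ} (ha : 2 ≤ a) (hb : 2 ≤ b) (hcop : Nat.Coprime a b) {D d : ℤ} {e : ℕ}
    {c : k} {F G : MvPolynomial (Fin 2) k} (hl : D + d - e = 1)
    (hFD : ∀ m, coeff m F ≠ 0 → (m 0 : ℤ) ≤ D) (hGd : ∀ m, coeff m G ≠ 0 → (m 0 : ℤ) ≤ d) :
    ∀ (N : ℕ) {ρ0 σ0 : ℕ} {A : ℤ} {n iF iG : ℕ}, n ≤ N →
      St a b D d e c F G ρ0 σ0 A n iF iG → A < n → Far A n := by
  intro N
  induction N with
  | zero =>
    intro ρ0 σ0 A n iF iG hn S _
    have := S.hn
    omega
  | succ N ih =>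
  intro ρ0 σ0 A n iF iG hnN S hAn
  have hu : 0 < (D + d - e) * n - A := by rw [hl]; linarith
  obtain ⟨ρ, σ, K, H, hlt, X1⟩ := exists_nx ha S hu
  have hT := X1.not_term S.hc (by omega) (by omega) S.hD S.hd S.hB hl hFD hGd
  obtain ⟨f, g, h, c', Y⟩ := X1.form ha hcop S hT
  have hρ := X1.hρ
  have hσ : 1 ≤ σ := by
    rcases Nat.eq_zero_or_pos σ with h0 | h0
    · subst h0; omega
    · exact h0
  have hKz : (0 : ℤ) < K := by exact_mod_cast X1.hK0
  have hHz : (0 : ℤ) < H := by exact_mod_cast X1.hH0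
  have hρz : (0 : ℤ) < ρ := by exact_mod_cast hρ
  have hσz : (1 : ℤ) ≤ σ := by exact_mod_cast hσ
  have hK := X1.hK
  rw [hl, mul_one] at hK
  have hρ2 : 2 ≤ ρ := by
    have : (2 : ℤ) ≤ ρ := by linarith
    exact_mod_cast this
  have hmain := X1.hu
  rw [hl, one_mul] at hmain
  have h0 : H < n * K := by
    have h1 : (0 : ℤ) < ρ * (n - A) := mul_pos hρz (by linarith)
    zify; linarith
  obtain ⟨r, μ, h1, h2, h3, hμ⟩ := Y.root ha S.hn X1.hK0 h0
  obtain ⟨μ0, g1, g2⟩ := Y.hm 0
  obtain ⟨A0, iF', iG', e1, L1, L2, e2, e3⟩ := Y.low hcop S X1 g1 g2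
  have hρA : (ρ : ℤ) * A = H + σ * n := by rw [X1.hH]; ring
  have hμ0n : μ0 < n := by
    have := Y.hz
    rw [g1] at this
    exact Nat.lt_of_mul_lt_mul_left this
  have haz : (2 : ℤ) ≤ a := by exact_mod_cast ha
  -- the multiplicity of zero is not critical
  have hne : H ≠ μ0 * K := by
    intro h4
    rcases Nat.eq_zero_or_pos μ0 with h5 | h5
    · subst h5
      rw [zero_mul] at h4
      have := X1.hH0
      omega
    · have h6 : f.IsRoot 0 := by
        rw [← Polynomial.rootMultiplicity_pos Y.hf0, g1]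
        exact Nat.mul_pos (by omega) h5
      have h7 := (root_local X1.hK0 Y.hc' Y.hf0 Y.heq h6).2
      apply h7
      rw [g1, h4]; ring
  rcases lt_or_gt_of_ne hne with h4 | h4
  · -- the edge stays above the diagonal
    have hμ01 : 1 ≤ μ0 := by
      rcases Nat.eq_zero_or_pos μ0 with h5 | h5
      · subst h5; omega
      · exact h5
    have S' : St a b D d e c F G ρ σ A0 μ0 iF' iG' :=
      ⟨S.hc, S.hB, L1, L2, e2, e3, hρ, hμ01⟩
    have h4z : (H : ℤ) < μ0 * K := by exact_mod_cast h4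
    have h5 : A0 < μ0 := by
      have h6 : (ρ : ℤ) * A0 < ρ * μ0 := by
        rw [e1]
        rw [hK] at h4z
        linarith
      exact lt_of_mul_lt_mul_left h6 hρz.le
    have i1 := ih (by omega : μ0 ≤ N) S' h5
    unfold Far at i1 ⊢
    have h9 : (μ0 : ℤ) < n := by exact_mod_cast hμ0n
    -- the differences
    have d1 : (ρ : ℤ) * (n - A) = n * K - H := hmain
    have d0 : (ρ : ℤ) * (μ0 - A0) = μ0 * K - H := by rw [mul_sub, e1, hK]; ring
    have hlt1 : (μ0 : ℤ) - A0 < n - A := by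
      have h7 : (ρ : ℤ) * (μ0 - A0) < ρ * (n - A) := by
        rw [d0, d1]
        have h10 : (μ0 : ℤ) * K < n * K := mul_lt_mul_of_pos_right h9 hKz
        linarith
      exact lt_of_mul_lt_mul_left h7 hρz.le
    -- `A d0 ≤ A0 d`
    have hcross : A * (μ0 - A0) ≤ A0 * (n - A) := by
      have h11 : (ρ : ℤ) * (ρ * (A0 * (n - A) - A * (μ0 - A0))) =
          (ρ * H) * (n - μ0) := by
        have : (ρ : ℤ) * (ρ * (A0 * (n - A) - A * (μ0 - A0))) =
            (ρ * A0) * (ρ * (n - A)) - (ρ * A) * (ρ * (μ0 - A0)) := by ring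
        rw [this, d1, d0, e1, hρA, hK]
        ring
      have h12 : (0 : ℤ) ≤ (ρ * H) * (n - μ0) := mul_nonneg (by positivity) (by linarith)
      rw [← h11] at h12
      have h13 := nonneg_of_mul_nonneg_right (nonneg_of_mul_nonneg_right h12 hρz) hρz
      linarith
    set x : ℤ := μ0 - A0 with hx
    set y : ℤ := n - A with hy
    have hx1 : 1 ≤ x := by linarith
    have h14 : x * (2 * A) ≤ x * (y * (y - 1)) := by
      have h15 : 2 * A0 * y ≤ (x * (x - 1)) * y :=
        mul_le_mul_of_nonneg_right i1 (by linarith)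
      have h16 : (x * y) * (x - 1) ≤ (x * y) * (y - 1) :=
        mul_le_mul_of_nonneg_left (by linarith) (mul_nonneg (by linarith) (by linarith))
      nlinarith
    exact le_of_mul_le_mul_left h14 (by linarith)
  · -- the edge crosses the diagonal
    have hr : r ≠ 0 := by
      rintro rfl
      rw [g1] at h1
      have : μ0 = μ := Nat.eq_of_mul_eq_mul_left (by omega) h1
      subst this
      omega
    have hfr : f.IsRoot r := by
      rw [← Polynomial.rootMultiplicity_pos Y.hf0, h1]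
      exact Nat.mul_pos (by omega) (by omega)
    obtain ⟨s, hs, hT'⟩ := h_natDegree hρ2 Y X1.hK0 hr hfr
    have hn0 : 0 < n := S.hn
    have htop := top_coeff Y.heq (by rw [Y.hfd]; exact Nat.mul_pos (by omega) hn0) (by
      rw [hT']
      have : 2 * 1 ≤ ρ * s := Nat.mul_le_mul hρ2 hs
      omega)
    rw [hT', Y.hfd] at htop
    have htop2 : H * (1 + ρ * s) = K * n := by
      apply Nat.eq_of_mul_eq_mul_left (by omega : 0 < a)
      calc a * (H * (1 + ρ * s)) = a * H * (1 + ρ * s) := by ring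
        _ = K * (a * n) := htop
        _ = a * (K * n) := by ring
    have horb := orbit hρ Y.hf0 Y.hres hr
    rw [h1, g1, Y.hfd] at horb
    have horb2 : ρ * μ + μ0 ≤ n := by
      apply Nat.le_of_mul_le_mul_left _ (by omega : 0 < a)
      calc a * (ρ * μ + μ0) = ρ * (a * μ) + a * μ0 := by ring
        _ ≤ a * n := horb
    obtain ⟨iF2, iG2, _, S2⟩ := Y.step1 S X1 hμ h1 h2
    have h3z : (H : ℤ) < μ * K := by exact_mod_cast h3
    obtain ⟨u', hu'⟩ := Int.eq_ofNat_of_zero_le (by linarith : (0 : ℤ) ≤ μ * K - H)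
    have hl2 : (ρ * D + ρ * d - ((ρ * e : ℕ) : ℤ)) = ρ := by
      push_cast
      linear_combination (ρ : ℤ) * hl
    have hu2 : (u' : ℤ) = (ρ * D + ρ * d - ((ρ * e : ℕ) : ℤ)) * μ - (H + σ * μ) := by
      rw [hl2, ← hu', hK]; ring
    -- `ρ ≤ H`
    have hρH : (ρ : ℤ) ≤ H := by
      have h5 : (ρ : ℤ) * (A0 - μ0) = H - μ0 * K := by rw [mul_sub, e1, hK]; ring
      have h6 : (0 : ℤ) < ρ * (A0 - μ0) := by
        rw [h5]
        have : (μ0 : ℤ) * K < H := by exact_mod_cast h4
        linarith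
      have h7 : (0 : ℤ) < A0 - μ0 := pos_of_mul_pos_right h6 hρz.le
      have h8 : (ρ : ℤ) * 1 ≤ ρ * (A0 - μ0) := mul_le_mul_of_nonneg_left (by linarith) hρz.le
      have h9 : (0 : ℤ) ≤ μ0 * K := by positivity
      linarith
    have hμ2 : 2 ≤ μ := by
      by_contra hcon
      have h5 : μ ≤ 1 := by omega
      have h6 : μ * K ≤ 1 * K := Nat.mul_le_mul_right _ h5
      have h7 : (K : ℤ) ≤ ρ - 1 := by rw [hK]; linarith
      have h8 : (K : ℤ) < H := by linarith
      have h9 : K < H := by exact_mod_cast h8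
      omega
    have hu3 := tree3 ha hb hcop ρ S2 hu2 (by
        have : (0 : ℤ) < u' := by rw [← hu']; linarith
        exact_mod_cast this) hμ2 (by
      rw [hl2]
      have : (0 : ℤ) ≤ σ := by positivity
      push_cast
      linarith)
    exact near_arith (μ := μ) (u' := u') hσ X1.hK0 hK hρA (by exact_mod_cast htop2) hs hρH
      (by
        have : ρ * μ ≤ n := by omega
        exact_mod_cast this) hu'.symm (by exact_mod_cast hu3)

/-- The main consequence of the local theory in the direction `(1, 0)`. -/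
theorem main_far {a b : ℕ} (ha : 2 ≤ a) (hb : 2 ≤ b) (hcop : Nat.Coprime a b)
    {p : ℕ} (hp : 0 < p) {c : k} (hc : c ≠ 0) {F G : MvPolynomial (Fin 2) k}
    (hF : Le (a * p) 0 F) (hG : Le (b * p) 0 G)
    (h : pderiv 0 F * pderiv 1 G - pderiv 1 F * pderiv 0 G = C c)
    (hf0 : tp (a * p) 0 F ≠ 0) (hg0 : tp (b * p) 0 G ≠ 0) :
    ∃ q, (tp (a * p) 0 F).natDegree = a * q ∧ (tp (b * p) 0 G).natDegree = b * q ∧ p ≠ q ∧
      (p < q → Far p q) := by
  have h1 : 2 * 1 ≤ a * p := Nat.mul_le_mul ha hp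
  have h2 : 2 * 1 ≤ b * p := Nat.mul_le_mul hb hp
  have hB := Bk_W hF hG (Nat.zero_le _) (Nat.zero_le _) (by omega) h
  obtain ⟨q, e1, e2, e3, _, e5⟩ := start ha (by omega) hcop (A := p) (l := 1)
    (e := a * p + b * p - 1)
    hc (by simpa using hB) (by rw [add_mul]; omega) (by omega) hp one_pos hf0 hg0
  refine ⟨q, e1, e2, by rwa [mul_one] at e3, fun hlt => ?_⟩
  obtain ⟨r, μ, g1, g2, _, S⟩ := e5 (by rwa [mul_one])
  have h3 : ∀ m, coeff m (W (a * p) 0 F) ≠ 0 → m 0 ≤ a * p := by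
    intro m hm
    obtain ⟨m', _, h4, _⟩ := exists_of_coeff_W hm
    omega
  have h4 : ∀ m, coeff m (W (b * p) 0 G) ≠ 0 → m 0 ≤ b * p := by
    intro m hm
    obtain ⟨m', _, h4, _⟩ := exists_of_coeff_W hm
    omega
  have h5 := shf_support (r := r) h3
  have h6 := shf_support (r := r) h4
  have h7 := far_level ha hb hcop (D := ((a * p : ℕ) : ℤ))
    (d := ((b * p : ℕ) : ℤ)) (e := a * p + b * p - 1) (by
      rw [Nat.cast_sub (by omega)]; push_cast; ring)
    (fun m hm => by exact_mod_cast h5 m hm) (fun m hm => by exact_mod_cast h6 m hm) μ le_rfl S (by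
      have : p < μ := by omega
      exact_mod_cast this)
  unfold Far at h7 ⊢
  have h8 : (μ : ℤ) ≤ q := by exact_mod_cast g2
  have h9 : (p : ℤ) + 1 ≤ μ := by
    have : p < μ := by omega
    exact_mod_cast this
  have h10 : ((μ : ℤ) - p) * (μ - p - 1) ≤ (q - p) * (q - p - 1) :=
    mul_le_mul (by linarith) (by linarith) (by linarith) (by linarith)
  linarith

open Pool.Agent.TH207.Tz in
theorem tz_far {a b p q : ℕ} (ha : 2 ≤ a) (hb : 2 ≤ b) (hcop : Nat.Coprime a b)
    (hp : 0 < p) (hpq : p < q) {F G : MvPolynomial (Fin 2) k} {c : k} (hc : c ≠ 0)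
    (hJ : pderiv 0 F * pderiv 1 G - pderiv 1 F * pderiv 0 G = C c)
    (hF1 : ∀ d, coeff d F ≠ 0 → d 1 ≤ a * q ∧ d 0 + d 1 ≤ a * p + a * q)
    (hF2 : coeff (ee (a * p) (a * q)) F ≠ 0)
    (hF3 : ∀ i ≤ a * q, ((X 0 + X 1 : MvPolynomial (Fin 2) k) ^ (a * q - i)) ∣
      homogeneousComponent (a * p + a * q - i) F)
    (hG1 : ∀ d, coeff d G ≠ 0 → d 0 + d 1 ≤ b * p + b * q)
    (hG2 : coeff (ee (b * p) (b * q)) G ≠ 0) : Far p q := by
  have hFt : F.totalDegree ≤ a * p + a * q := tot_le fun d hd => (hF1 d hd).2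
  have hGt : G.totalDegree ≤ b * p + b * q := tot_le hG1
  have hGt' : G.totalDegree = b * p + b * q := by
    apply le_antisymm hGt
    have := le_tot hG2
    rwa [ee_zero, ee_one] at this
  obtain ⟨κ, hκ, hT⟩ := top_form hF1 hF2 (by
    have := hF3 0 (Nat.zero_le _)
    simpa using this)
  obtain ⟨t1, t2⟩ := top_z hFt hκ hT
  have hJ' : pderiv 0 (ph F) * pderiv 1 (ph G) - pderiv 1 (ph F) * pderiv 0 (ph G) = C c := by
    rw [jac_ph, hJ, ph_C]
  have hG3 : ∃ d, coeff d (ph G) ≠ 0 ∧ d 0 + d 1 = b * p + b * q := by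
    have h0 : ph G ≠ 0 := by
      intro h0
      have h1 := ps_ph G
      rw [h0, map_zero] at h1
      rw [← h1, coeff_zero] at hG2
      exact hG2 rfl
    have h1 : ((ph G).support).Nonempty := by
      rw [Finset.nonempty_iff_ne_empty, Ne, support_eq_empty]; exact h0
    obtain ⟨d, h2, h3⟩ := Finset.exists_mem_eq_sup (ph G).support h1
      (fun m => m.sum (fun _ e => e))
    refine ⟨d, mem_support_iff.1 h2, ?_⟩
    rw [← hGt', ← totalDegree_ph' G]
    unfold totalDegree
    rw [h3, fsum]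
  obtain ⟨r1, r2, r3, r4⟩ := pair ha (by omega) hp (by omega) hc hJ'
    (deg_z hFt hF3) (Le.of_tot ((totalDegree_ph F).trans hFt)) t1 t2
    (Le.of_tot ((totalDegree_ph G).trans hGt)) hG3
  obtain ⟨q', s1, _, _, s4⟩ := main_far ha hb hcop hp hc (deg_z hFt hF3) r1 hJ' r3 r4
  have hqq : q' = q := by
    rw [r2] at s1
    exact (Nat.eq_of_mul_eq_mul_left (by omega) s1).symm
  rw [hqq] at s4
  exact s4 hpq

end Pool.Agent.P8H36.JT
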