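import Pool.Agent.TH207.Lv2

/-! The arithmetic of the terminal directions of a pair of polynomials. -/

set_option autoImplicit false
set_option linter.unusedSectionVars false
set_option linter.unusedSimpArgs false

namespace Pool.Agent.P8H36.JT

open MvPolynomial Pool.Agent.TH207.Ser

/-- There is a divisor `ρ` of `a` or of `b` with `v (a + b) = ρ u + 1` for some `1 ≤ v ≤ V`, `u ≤ U`. -/
def Rel (a b V U : ℕ) : Prop :=
  ∃ ρ v u : ℕ, (ρ ∣ a ∨ ρ ∣ b) ∧ 1 ≤ v ∧ v ≤ V ∧ u ≤ U ∧ v * (a + b) = ρ * u + 1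

theorem Rel.mono {a b V U V' U' : ℕ} (h : Rel a b V U) (hV : V ≤ V') (hU : U ≤ U') :
    Rel a b V' U' := by
  obtain ⟨ρ, v, u, h1, h2, h3, h4, h5⟩ := h
  exact ⟨ρ, v, u, h1, h2, h3.trans hV, h4.trans hU, h5⟩

section term

variable {k : Type*} [Field k] [CharZero k]
variable {a b : ℕ} {D d : ℤ} {e : ℕ} {c : k}
    {F G : MvPolynomial (Fin 2) k} {A : ℤ} {n iF iG : ℕ} {ρ σ K H : ℕ}

/-- At a terminal direction the denominator divides `a` or `b`. -/
theorem rho_dvd (ha : 2 ≤ a) (hb : 2 ≤ b) (hn : 1 ≤ n) (hc : c ≠ 0)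
    (hB : Bk D d F G = C c * X 0 ^ e) (X1 : Nx a b D d e F G A n iF iG ρ σ K H)
    (hT : (a + b) * H = K) :
    (ρ ∣ a ∧ (ρ : ℤ) ∣ (b * n : ℤ) - 1) ∨ (ρ ∣ b ∧ (ρ : ℤ) ∣ (a * n : ℤ) - 1) := by
  obtain ⟨m, m', h1, h2, h3, h4⟩ := Pool.Agent.TH207.Ser.mono hc hB
  have h5 := X1.hF.le m h1
  have h6 := X1.hG.le m' h2
  have hd := X1.hdiff
  have hT' : ((a : ℤ) + b) * H = K := by exact_mod_cast hT
  rw [hT', sub_self] at hd
  have h7 : ρ * iF + σ * (a * n) + (ρ * iG + σ * (b * n)) = σ + ρ * e := by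
    zify; linarith
  have h8 : (ρ * m 0 + σ * m 1) + (ρ * m' 0 + σ * m' 1) = σ + ρ * e := by
    rw [← h3]
    calc (ρ * m 0 + σ * m 1) + (ρ * m' 0 + σ * m' 1) =
        ρ * (m 0 + m' 0) + σ * (m 1 + m' 1) := by ring
      _ = σ + ρ * (m 0 + m' 0) := by rw [h4]; ring
  have h9 : ρ * iF + σ * (a * n) = ρ * m 0 + σ * m 1 := by omega
  have h10 : ρ * iG + σ * (b * n) = ρ * m' 0 + σ * m' 1 := by omega
  have key : ∀ (i j x y : ℕ), ρ * i + σ * j = ρ * x + σ * y → (ρ : ℤ) ∣ (j : ℤ) - y := by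
    intro i j x y h
    have h11 : (ρ : ℤ) ∣ σ * ((j : ℤ) - y) := by
      refine ⟨(x : ℤ) - i, ?_⟩
      zify at h
      linarith
    exact (Nat.isCoprime_iff_coprime.2 X1.hcop).dvd_of_dvd_mul_left h11
  have k1 := key _ _ _ _ h9
  have k2 := key _ _ _ _ h10
  have cop : ∀ x y : ℕ, (ρ : ℤ) ∣ ((x * n : ℕ) : ℤ) - 1 → (ρ : ℤ) ∣ ((y * n : ℕ) : ℤ) → ρ ∣ y := by
    intro x y hx hy
    have h12 : IsCoprime (ρ : ℤ) (n : ℤ) := by
      obtain ⟨t, ht⟩ := hx
      refine ⟨-t, x, ?_⟩
      push_cast at ht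
      linear_combination ht
    push_cast at hy
    exact_mod_cast h12.dvd_of_dvd_mul_right hy
  rcases (by omega : m 1 = 0 ∧ m' 1 = 1 ∨ m 1 = 1 ∧ m' 1 = 0) with ⟨g1, g2⟩ | ⟨g1, g2⟩
  · left
    rw [g1] at k1
    rw [g2] at k2
    push_cast at k1 k2
    refine ⟨cop b a (by push_cast; exact k2) (by push_cast; simpa using k1), k2⟩
  · right
    rw [g1] at k1
    rw [g2] at k2
    push_cast at k1 k2
    refine ⟨cop a b (by push_cast; exact k1) (by push_cast; simpa using k2), k1⟩

/-- The relation at a terminal direction. -/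
theorem term_rel (ha : 2 ≤ a) (hb : 2 ≤ b) (hn : 1 ≤ n) (hc : c ≠ 0)
    (hB : Bk D d F G = C c * X 0 ^ e) (X1 : Nx a b D d e F G A n iF iG ρ σ K H)
    (hT : (a + b) * H = K) {u : ℕ} (hu : (u : ℤ) = (D + d - e) * n - A) :
    Rel a b n u := by
  have h1 := rho_dvd ha hb hn hc hB X1 hT
  have h2 := X1.hu
  rw [← hu] at h2
  have h3 : ρ * u + H = n * K := by zify; linarith
  rw [← hT] at h3
  have hcopH : Nat.Coprime ρ H := by
    have h4 : IsCoprime (ρ : ℤ) (K : ℤ) := by
      rw [X1.hK]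
      obtain ⟨s, t, hst⟩ := Nat.isCoprime_iff_coprime.2 X1.hcop
      refine ⟨s + t * (D + d - e), -t, ?_⟩
      linear_combination hst
    have h5 : Nat.Coprime ρ K := Nat.isCoprime_iff_coprime.1 h4
    rw [← hT] at h5
    exact Nat.Coprime.coprime_mul_left_right h5
  obtain ⟨q, hq⟩ : ∃ q, n * (a + b) = q + 1 :=
    ⟨n * (a + b) - 1, by have : 1 ≤ n * (a + b) := Nat.mul_pos hn (by omega); omega⟩
  have h6 : ρ * u = q * H := by
    have : ρ * u + H = (q + 1) * H := by rw [h3, ← hq]; ring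
    linarith [add_mul q 1 H]
  have h7 : ρ ∣ q := hcopH.dvd_of_dvd_mul_right ⟨u, h6.symm⟩
  obtain ⟨u1, hu1⟩ := h7
  have hρ := X1.hρ
  refine ⟨ρ, n, u1, h1.imp (fun h => h.1) (fun h => h.1), hn, le_rfl, ?_, by rw [hq, hu1]⟩
  have h8 : ρ * u = ρ * (u1 * H) := by rw [h6, hu1]; ring
  have h9 : u = u1 * H := Nat.eq_of_mul_eq_mul_left hρ h8
  rw [h9]
  exact Nat.le_mul_of_pos_right _ X1.hH0

end term

variable {k : Type*} [Field k] [CharZero k] [IsAlgClosed k]

/-- The tree of vertices ends with a terminal direction. -/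
theorem tree {a b : ℕ} (ha : 2 ≤ a) (hb : 2 ≤ b) (hcop : Nat.Coprime a b) :
    ∀ (u t : ℕ) {D d : ℤ} {e : ℕ} {c : k} {F G : MvPolynomial (Fin 2) k} {ρ0 σ0 : ℕ} {A : ℤ}
      {n iF iG : ℕ}, St a b D d e c F G ρ0 σ0 A n iF iG → (u : ℤ) = (D + d - e) * n - A → 0 < u →
      (D + d - e) * ρ0 - σ0 ≤ t * ρ0 → Rel a b n u := by
  intro u
  induction u using Nat.strong_induction_on with
  | _ u ihu =>
  intro t
  induction t using Nat.strong_induction_on with
  | _ t iht =>
  intro D d e c F G ρ0 σ0 A n iF iG S hu hu0 ht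
  have huz : (0 : ℤ) < (D + d - e) * n - A := by rw [← hu]; exact_mod_cast hu0
  obtain ⟨ρ, σ, K, H, hlt, X1⟩ := exists_nx ha S huz
  have hKz : (0 : ℤ) < K := by exact_mod_cast X1.hK0
  have hHz : (0 : ℤ) < H := by exact_mod_cast X1.hH0
  have hρz : (0 : ℤ) < ρ := by exact_mod_cast X1.hρ
  have hmain : (ρ : ℤ) * u = n * K - H := by rw [hu]; exact X1.hu
  rcases Nat.lt_or_ge K ((a + b) * H) with hT | hT
  · -- a non-terminal direction
    obtain ⟨f, g, h, c', Y⟩ := X1.form ha hcop S hT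
    have h0 : H < n * K := by
      have h1 : (0 : ℤ) < ρ * u := mul_pos hρz (by exact_mod_cast hu0)
      zify; linarith
    obtain ⟨r, μ, h1, h2, h3, hμ⟩ := Y.root ha S.hn X1.hK0 h0
    have h3z : (H : ℤ) < μ * K := by exact_mod_cast h3
    by_cases hr : r = 0
    · subst hr
      obtain ⟨A', iF', iG', e1, _, S'⟩ := Y.step0 hcop S X1 hμ h1 h2
      have hμn : μ < n := by
        have := Y.hz
        rw [h1] at this
        exact Nat.lt_of_mul_lt_mul_left this
      have hμnz : (μ : ℤ) < n := by exact_mod_cast hμn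
      obtain ⟨uz, huz'⟩ : ∃ uz : ℤ, uz = (D + d - e) * μ - A' := ⟨_, rfl⟩
      have e2 : (ρ : ℤ) * uz = μ * K - H := by
        rw [huz', X1.hK]
        linear_combination -e1
      have e3 : 0 < uz := by
        have : (0 : ℤ) < ρ * uz := by rw [e2]; linarith
        exact pos_of_mul_pos_right this hρz.le
      have e4 : uz < u := by
        have h5 : (ρ : ℤ) * uz < ρ * u := by
          rw [e2, hmain]
          have := mul_lt_mul_of_pos_right hμnz hKz
          linarith
        exact lt_of_mul_lt_mul_left h5 hρz.le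
      obtain ⟨u', hu'⟩ := Int.eq_ofNat_of_zero_le e3.le
      subst hu'
      have h6 := ihu u' (by exact_mod_cast e4) (D + d - e).toNat S' huz' (by exact_mod_cast e3) (by
        have h7 : D + d - e ≤ ((D + d - e).toNat : ℤ) := Int.self_le_toNat _
        have h8 := mul_le_mul_of_nonneg_right h7 hρz.le
        have h9 : (0 : ℤ) ≤ σ := by positivity
        linarith)
      exact h6.mono hμn.le (by exact_mod_cast e4.le)
    · obtain ⟨iF', iG', _, S'⟩ := Y.step1 S X1 hμ h1 h2
      have horb := orbit X1.hρ Y.hf0 Y.hres hr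
      rw [h1, Y.hfd] at horb
      have hρμ : ρ * μ ≤ n := by
        have h4 : a * (ρ * μ) ≤ a * n := by
          calc a * (ρ * μ) = ρ * (a * μ) := by ring
            _ ≤ a * n := by omega
        exact Nat.le_of_mul_le_mul_left h4 (by omega)
      have hμn : μ ≤ n := le_trans (Nat.le_mul_of_pos_left _ X1.hρ) hρμ
      have hρμz : (ρ : ℤ) * μ ≤ n := by exact_mod_cast hρμ
      obtain ⟨uz, huz'⟩ : ∃ uz : ℤ, uz = μ * K - H := ⟨_, rfl⟩
      have e3 : 0 < uz := by rw [huz']; linarith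
      have hid : (ρ : ℤ) * (u - uz) = K * (n - ρ * μ) + (ρ - 1) * H := by
        rw [mul_sub, hmain, huz']; ring
      have e5 : (0 : ℤ) ≤ K * (n - ρ * μ) := mul_nonneg hKz.le (by linarith)
      have e6 : (0 : ℤ) ≤ (ρ - 1) * H := mul_nonneg (by linarith) hHz.le
      have e4 : uz ≤ u := by
        have h5 : (0 : ℤ) ≤ ρ * (u - uz) := by rw [hid]; linarith
        have := nonneg_of_mul_nonneg_right h5 hρz
        linarith
      have hl : (ρ * D + ρ * d - ((ρ * e : ℕ) : ℤ)) = ρ * (D + d - e) := by push_cast; ring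
      have hS' : uz = (ρ * D + ρ * d - ((ρ * e : ℕ) : ℤ)) * μ - (H + σ * μ) := by
        rw [hl, huz', X1.hK]; ring
      obtain ⟨u', hu'⟩ := Int.eq_ofNat_of_zero_le e3.le
      subst hu'
      rcases lt_or_eq_of_le e4 with h5 | h5
      · have h6 := ihu u' (by exact_mod_cast h5)
          (ρ * D + ρ * d - ((ρ * e : ℕ) : ℤ)).toNat S' hS' (by exact_mod_cast e3) (by
          have h7 := Int.self_le_toNat (ρ * D + ρ * d - ((ρ * e : ℕ) : ℤ))
          have h9 : (0 : ℤ) ≤ σ := by positivity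
          push_cast at h7 ⊢
          linarith)
        exact h6.mono hμn (by exact_mod_cast h5.le)
      · -- the trivial change of coordinates
        have h6 : (K : ℤ) * (n - ρ * μ) + (ρ - 1) * H = 0 := by
          rw [← hid, h5]; ring
        have h7 : (K : ℤ) * (n - ρ * μ) = 0 := by linarith
        have h8 : ((ρ : ℤ) - 1) * H = 0 := by linarith
        have h9 : (ρ : ℤ) = 1 := by
          rcases mul_eq_zero.1 h8 with h | h <;> linarith
        have h10 : (n : ℤ) = μ := by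
          rcases mul_eq_zero.1 h7 with h | h
          · linarith
          · rw [h9] at h; linarith
        have hρ1 : ρ = 1 := by exact_mod_cast h9
        have hnμ : n = μ := by exact_mod_cast h10
        subst hρ1 hnμ
        have hu'u : u' = u := by exact_mod_cast h5
        subst hu'u
        have hlpos : (0 : ℤ) < D + d - e - σ := by
          have := X1.hK
          push_cast at this
          linarith
        obtain ⟨t', ht'⟩ := Int.eq_ofNat_of_zero_le hlpos.le
        have hρ0 : (0 : ℤ) < ρ0 := by exact_mod_cast S.hρ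
        have hlt' : (σ0 : ℤ) < σ * ρ0 := by
          have : σ0 * 1 < σ * ρ0 := hlt
          exact_mod_cast (by omega : σ0 < σ * ρ0)
        have ht't : t' < t := by
          have h11 : (t' : ℤ) * ρ0 < t * ρ0 := by
            have : (t' : ℤ) = D + d - e - σ := ht'.symm
            rw [this]
            linarith
          exact_mod_cast lt_of_mul_lt_mul_right h11 hρ0.le
        exact iht t' ht't S' hS' hu0 (by
          push_cast
          have : (t' : ℤ) = D + d - e - σ := ht'.symm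
          linarith)
  · -- a terminal direction
    have hT' : (a + b) * H = K := le_antisymm hT X1.hle
    exact term_rel ha hb S.hn S.hc S.hB X1 hT' hu

end Pool.Agent.P8H36.JT
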