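import Pool.Agent.TH207.Tz3

/-! A terminal direction together with the coordinates in which it is seen. -/

set_option autoImplicit false
set_option linter.unusedSectionVars false
set_option linter.unusedSimpArgs false

namespace Pool.Agent.P8H36.JT

open MvPolynomial Pool.Agent.TH207.Ser

variable {k : Type*} [Field k] [CharZero k]

/-- There is a terminal direction after a substitution `X 0 = X 0 ^ L`, `X 1 = X 1 + ...`. -/
def Te (a b : ℕ) (D d : ℤ) (F G : MvPolynomial (Fin 2) k) : Prop :=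
  ∃ (S : MvPolynomial (Fin 2) k →ₐ[k] MvPolynomial (Fin 2) k) (L : ℕ), S (X 0) = X 0 ^ L ∧
    (∀ P, pderiv 1 (S P) = S (pderiv 1 P)) ∧
    ∃ (e : ℕ) (c : k) (ρ0 σ0 : ℕ) (A : ℤ) (n iF iG ρ σ K H : ℕ),
      St a b (L * D) (L * d) e c (S F) (S G) ρ0 σ0 A n iF iG ∧
      Nx a b (L * D) (L * d) e (S F) (S G) A n iF iG ρ σ K H ∧ (a + b) * H = K

theorem Te.shf {a b : ℕ} {D d : ℤ} {F G : MvPolynomial (Fin 2) k} {ρ σ : ℕ} {r : k}
    (h : Te a b (ρ * D) (ρ * d) (shf ρ σ r F) (shf ρ σ r G)) : Te a b D d F G := by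
  obtain ⟨S, L, h1, h2, e, c, ρ0, σ0, A, n, iF, iG, ρ', σ', K, H, h3, h4, h5⟩ := h
  have e1 : ((L * ρ : ℕ) : ℤ) * D = L * (ρ * D) := by push_cast; ring
  have e2 : ((L * ρ : ℕ) : ℤ) * d = L * (ρ * d) := by push_cast; ring
  refine ⟨S.comp (Pool.Agent.TH207.Ser.shf ρ σ r), L * ρ, ?_, ?_, e, c, ρ0, σ0, A, n, iF, iG, ρ', σ', K, H, ?_⟩
  · rw [AlgHom.comp_apply, shf_X0, map_pow, h1, ← pow_mul]
  · intro P
    rw [AlgHom.comp_apply, AlgHom.comp_apply, h2, pderiv1_shf]
  · rw [e1, e2]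
    exact ⟨h3, h4, h5⟩

variable [IsAlgClosed k]

/-- The tree of vertices ends with a terminal direction. -/
theorem tree_te {a b : ℕ} (ha : 2 ≤ a) (hcop : Nat.Coprime a b) :
    ∀ (u t : ℕ) {D d : ℤ} {e : ℕ} {c : k} {F G : MvPolynomial (Fin 2) k} {ρ0 σ0 : ℕ} {A : ℤ}
      {n iF iG : ℕ}, St a b D d e c F G ρ0 σ0 A n iF iG → (u : ℤ) = (D + d - e) * n - A → 0 < u →
      (D + d - e) * ρ0 - σ0 ≤ t * ρ0 → Te a b D d F G := by
  intro u
  induction u using Nat.strong_induction_on with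
  | _ u ihu =>
  intro t
  induction t using Nat.strong_induction_on with
  | _ t iht =>
  intro D d e c F G ρ0 σ0 A n iF iG S hu hu0 ht
  have huz : (0 : ℤ) < (D + d - e) * n - A := by rw [← hu]; exact_mod_cast hu0
  obtain ⟨ρ, σ, K, H, hlt, X1⟩ := exists_nx ha S huz
  have hKz : (0 : ℤ) < K := by exact_mod_cast X1.hK0
  have hHz : (0 : ℤ) < H := by exact_mod_cast X1.hH0
  have hρz : (0 : ℤ) < ρ := by exact_mod_cast X1.hρ
  have hmain : (ρ : ℤ) * u = n * K - H := by rw [hu]; exact X1.hu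
  rcases Nat.lt_or_ge K ((a + b) * H) with hT | hT
  · -- a non-terminal direction
    obtain ⟨f, g, h, c', Y⟩ := X1.form ha hcop S hT
    have h0 : H < n * K := by
      have h1 : (0 : ℤ) < ρ * u := mul_pos hρz (by exact_mod_cast hu0)
      zify; linarith
    obtain ⟨r, μ, h1, h2, h3, hμ⟩ := Y.root ha S.hn X1.hK0 h0
    have h3z : (H : ℤ) < μ * K := by exact_mod_cast h3
    by_cases hr : r = 0
    · subst hr
      obtain ⟨A', iF', iG', e1, _, S'⟩ := Y.step0 hcop S X1 hμ h1 h2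
      have hμn : μ < n := by
        have := Y.hz
        rw [h1] at this
        exact Nat.lt_of_mul_lt_mul_left this
      have hμnz : (μ : ℤ) < n := by exact_mod_cast hμn
      obtain ⟨uz, huz'⟩ : ∃ uz : ℤ, uz = (D + d - e) * μ - A' := ⟨_, rfl⟩
      have e2 : (ρ : ℤ) * uz = μ * K - H := by
        rw [huz', X1.hK]
        linear_combination -e1
      have e3 : 0 < uz := by
        have : (0 : ℤ) < ρ * uz := by rw [e2]; linarith
        exact pos_of_mul_pos_right this hρz.le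
      have e4 : uz < u := by
        have h5 : (ρ : ℤ) * uz < ρ * u := by
          rw [e2, hmain]
          have := mul_lt_mul_of_pos_right hμnz hKz
          linarith
        exact lt_of_mul_lt_mul_left h5 hρz.le
      obtain ⟨u', hu'⟩ := Int.eq_ofNat_of_zero_le e3.le
      subst hu'
      exact ihu u' (by exact_mod_cast e4) (D + d - e).toNat S' huz' (by exact_mod_cast e3) (by
        have h7 : D + d - e ≤ ((D + d - e).toNat : ℤ) := Int.self_le_toNat _
        have h8 := mul_le_mul_of_nonneg_right h7 hρz.le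
        have h9 : (0 : ℤ) ≤ σ := by positivity
        linarith)
    · obtain ⟨iF', iG', _, S'⟩ := Y.step1 S X1 hμ h1 h2
      have horb := orbit X1.hρ Y.hf0 Y.hres hr
      rw [h1, Y.hfd] at horb
      have hρμ : ρ * μ ≤ n := by
        have h4 : a * (ρ * μ) ≤ a * n := by
          calc a * (ρ * μ) = ρ * (a * μ) := by ring
            _ ≤ a * n := by omega
        exact Nat.le_of_mul_le_mul_left h4 (by omega)
      have hρμz : (ρ : ℤ) * μ ≤ n := by exact_mod_cast hρμ
      obtain ⟨uz, huz'⟩ : ∃ uz : ℤ, uz = μ * K - H := ⟨_, rfl⟩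
      have e3 : 0 < uz := by rw [huz']; linarith
      have hid : (ρ : ℤ) * (u - uz) = K * (n - ρ * μ) + (ρ - 1) * H := by
        rw [mul_sub, hmain, huz']; ring
      have e5 : (0 : ℤ) ≤ K * (n - ρ * μ) := mul_nonneg hKz.le (by linarith)
      have e6 : (0 : ℤ) ≤ (ρ - 1) * H := mul_nonneg (by linarith) hHz.le
      have e4 : uz ≤ u := by
        have h5 : (0 : ℤ) ≤ ρ * (u - uz) := by rw [hid]; linarith
        have := nonneg_of_mul_nonneg_right h5 hρz
        linarith
      have hl : (ρ * D + ρ * d - ((ρ * e : ℕ) : ℤ)) = ρ * (D + d - e) := by push_cast; ring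
      have hS' : uz = (ρ * D + ρ * d - ((ρ * e : ℕ) : ℤ)) * μ - (H + σ * μ) := by
        rw [hl, huz', X1.hK]; ring
      obtain ⟨u', hu'⟩ := Int.eq_ofNat_of_zero_le e3.le
      subst hu'
      rcases lt_or_eq_of_le e4 with h5 | h5
      · exact (ihu u' (by exact_mod_cast h5)
          (ρ * D + ρ * d - ((ρ * e : ℕ) : ℤ)).toNat S' hS' (by exact_mod_cast e3) (by
          have h7 := Int.self_le_toNat (ρ * D + ρ * d - ((ρ * e : ℕ) : ℤ))
          have h9 : (0 : ℤ) ≤ σ := by positivity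
          push_cast at h7 ⊢
          linarith)).shf
      · -- the trivial change of coordinates
        have h6 : (K : ℤ) * (n - ρ * μ) + (ρ - 1) * H = 0 := by
          rw [← hid, h5]; ring
        have h7 : (K : ℤ) * (n - ρ * μ) = 0 := by linarith
        have h8 : ((ρ : ℤ) - 1) * H = 0 := by linarith
        have h9 : (ρ : ℤ) = 1 := by
          rcases mul_eq_zero.1 h8 with h | h <;> linarith
        have h10 : (n : ℤ) = μ := by
          rcases mul_eq_zero.1 h7 with h | h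
          · linarith
          · rw [h9] at h; linarith
        have hρ1 : ρ = 1 := by exact_mod_cast h9
        have hnμ : n = μ := by exact_mod_cast h10
        subst hρ1 hnμ
        have hu'u : u' = u := by exact_mod_cast h5
        subst hu'u
        have hlpos : (0 : ℤ) < D + d - e - σ := by
          have := X1.hK
          push_cast at this
          linarith
        obtain ⟨t', ht'⟩ := Int.eq_ofNat_of_zero_le hlpos.le
        have hρ0 : (0 : ℤ) < ρ0 := by exact_mod_cast S.hρ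
        have hlt' : (σ0 : ℤ) < σ * ρ0 := by
          have : σ0 * 1 < σ * ρ0 := hlt
          exact_mod_cast (by omega : σ0 < σ * ρ0)
        have ht't : t' < t := by
          have h11 : (t' : ℤ) * ρ0 < t * ρ0 := by
            have : (t' : ℤ) = D + d - e - σ := ht'.symm
            rw [this]
            linarith
          exact_mod_cast lt_of_mul_lt_mul_right h11 hρ0.le
        exact (iht t' ht't S' hS' hu0 (by
          push_cast
          have : (t' : ℤ) = D + d - e - σ := ht'.symm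
          linarith)).shf
  · -- a terminal direction
    have hT' : (a + b) * H = K := le_antisymm hT X1.hle
    refine ⟨AlgHom.id k _, 1, by simp, fun P => rfl, e, c, ρ0, σ0, A, n, iF, iG, ρ, σ, K, H, ?_⟩
    simp only [Nat.cast_one, one_mul, AlgHom.id_apply]
    exact ⟨S, X1, hT'⟩

/-- The terminal direction for a pair with leading polynomials in the direction `(1, 0)`. -/
theorem main_te {a b : ℕ} (ha : 2 ≤ a) (hb : 2 ≤ b) (hcop : Nat.Coprime a b)
    {p : ℕ} (hp : 0 < p) {c : k} (hc : c ≠ 0) {F G : MvPolynomial (Fin 2) k}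
    (hF : Le (a * p) 0 F) (hG : Le (b * p) 0 G)
    (h : pderiv 0 F * pderiv 1 G - pderiv 1 F * pderiv 0 G = C c)
    (hf0 : tp (a * p) 0 F ≠ 0) (hg0 : tp (b * p) 0 G ≠ 0) :
    ∃ q, (tp (a * p) 0 F).natDegree = a * q ∧
      (p < q → Te a b ((a * p : ℕ) : ℤ) ((b * p : ℕ) : ℤ) (W (a * p) 0 F) (W (b * p) 0 G)) := by
  have h1 : 2 * 1 ≤ a * p := Nat.mul_le_mul ha hp
  have h2 : 2 * 1 ≤ b * p := Nat.mul_le_mul hb hp
  have hB := Bk_W hF hG (Nat.zero_le _) (Nat.zero_le _) (by omega) h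
  obtain ⟨q, e1, e2, e3, _, e5⟩ := start ha (by omega) hcop (A := p) (l := 1)
    (e := a * p + b * p - 1)
    hc (by simpa using hB) (by rw [add_mul]; omega) (by omega) hp one_pos hf0 hg0
  refine ⟨q, e1, fun hlt => ?_⟩
  obtain ⟨r, μ, g1, g2, _, S⟩ := e5 (by rwa [mul_one])
  have hl : ((a * p : ℕ) : ℤ) + ((b * p : ℕ) : ℤ) - ((a * p + b * p - 1 : ℕ) : ℤ) = 1 := by
    rw [Nat.cast_sub (by omega)]; push_cast; ring
  have h7 : Te a b ((a * p : ℕ) : ℤ) ((b * p : ℕ) : ℤ) (Pool.Agent.TH207.Ser.shf 1 0 r (W (a * p) 0 F))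
      (Pool.Agent.TH207.Ser.shf 1 0 r (W (b * p) 0 G)) := by
    refine tree_te ha hcop (μ - p) 1 S ?_ (by omega) ?_
    · rw [hl, Nat.cast_sub (by omega)]; push_cast; ring
    · rw [hl]; simp
  have h8 : Te a b ((1 : ℕ) * ((a * p : ℕ) : ℤ)) ((1 : ℕ) * ((b * p : ℕ) : ℤ))
      (Pool.Agent.TH207.Ser.shf 1 0 r (W (a * p) 0 F))
      (Pool.Agent.TH207.Ser.shf 1 0 r (W (b * p) 0 G)) := by
    simpa using h7
  exact h8.shf

open Pool.Agent.TH207.Tz in
theorem tz_te {a b p q : ℕ} (ha : 2 ≤ a) (hb : 2 ≤ b) (hcop : Nat.Coprime a b)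
    (hp : 0 < p) (hpq : p < q) {F G : MvPolynomial (Fin 2) k} {c : k} (hc : c ≠ 0)
    (hJ : pderiv 0 F * pderiv 1 G - pderiv 1 F * pderiv 0 G = C c)
    (hF1 : ∀ d, coeff d F ≠ 0 → d 1 ≤ a * q ∧ d 0 + d 1 ≤ a * p + a * q)
    (hF2 : coeff (ee (a * p) (a * q)) F ≠ 0)
    (hF3 : ∀ i ≤ a * q, ((X 0 + X 1 : MvPolynomial (Fin 2) k) ^ (a * q - i)) ∣
      homogeneousComponent (a * p + a * q - i) F)
    (hG1 : ∀ d, coeff d G ≠ 0 → d 0 + d 1 ≤ b * p + b * q)
    (hG2 : coeff (ee (b * p) (b * q)) G ≠ 0) :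
    Le (a * p) 0 (ph F) ∧ Le (b * p) 0 (ph G) ∧
    Te a b ((a * p : ℕ) : ℤ) ((b * p : ℕ) : ℤ) (W (a * p) 0 (ph F)) (W (b * p) 0 (ph G)) := by
  have hFt : F.totalDegree ≤ a * p + a * q := tot_le fun d hd => (hF1 d hd).2
  have hGt : G.totalDegree ≤ b * p + b * q := tot_le hG1
  have hGt' : G.totalDegree = b * p + b * q := by
    apply le_antisymm hGt
    have := le_tot hG2
    rwa [ee_zero, ee_one] at this
  obtain ⟨κ, hκ, hT⟩ := top_form hF1 hF2 (by
    have := hF3 0 (Nat.zero_le _)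
    simpa using this)
  obtain ⟨t1, t2⟩ := top_z hFt hκ hT
  have hJ' : pderiv 0 (ph F) * pderiv 1 (ph G) - pderiv 1 (ph F) * pderiv 0 (ph G) = C c := by
    rw [jac_ph, hJ, ph_C]
  have hG3 : ∃ d, coeff d (ph G) ≠ 0 ∧ d 0 + d 1 = b * p + b * q := by
    have h0 : ph G ≠ 0 := by
      intro h0
      have h1 := ps_ph G
      rw [h0, map_zero] at h1
      rw [← h1, coeff_zero] at hG2
      exact hG2 rfl
    have h1 : ((ph G).support).Nonempty := by
      rw [Finset.nonempty_iff_ne_empty, Ne, support_eq_empty]; exact h0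
    obtain ⟨d, h2, h3⟩ := Finset.exists_mem_eq_sup (ph G).support h1
      (fun m => m.sum (fun _ e => e))
    refine ⟨d, mem_support_iff.1 h2, ?_⟩
    rw [← hGt', ← totalDegree_ph' G]
    unfold totalDegree
    rw [h3, fsum]
  obtain ⟨r1, r2, r3, r4⟩ := pair ha (by omega) hp (by omega) hc hJ'
    (deg_z hFt hF3) (Le.of_tot ((totalDegree_ph F).trans hFt)) t1 t2
    (Le.of_tot ((totalDegree_ph G).trans hGt)) hG3
  obtain ⟨q', s1, s4⟩ := main_te ha hb hcop hp hc (deg_z hFt hF3) r1 hJ' r3 r4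
  have hqq : q' = q := by
    rw [r2] at s1
    exact (Nat.eq_of_mul_eq_mul_left (by omega) s1).symm
  rw [hqq] at s4
  exact ⟨deg_z hFt hF3, r1, s4 hpq⟩

end Pool.Agent.P8H36.JT
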