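import Pool.Agent.P8H36.JT.TreeS

/-! The valuation of rank two at a root of the leading form in a direction. -/

set_option autoImplicit false
set_option linter.unusedSectionVars false
set_option linter.unusedSimpArgs false

namespace Pool.Agent.P8H36.JT

open MvPolynomial Pool.Agent.TH207.Ser

section tm

variable {k : Type*} [Field k]

/-- The lexicographic trailing exponent of `P` is `(u, v)`. -/
def Tm (P : Polynomial (Polynomial k)) (u v : ℕ) : Prop :=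
  ∃ P1, P = Polynomial.X ^ u * P1 ∧ ∃ p, P1.coeff 0 = Polynomial.X ^ v * p ∧ p.coeff 0 ≠ 0

theorem Tm.mul {P Q : Polynomial (Polynomial k)} {u v u' v' : ℕ} (h : Tm P u v)
    (h' : Tm Q u' v') : Tm (P * Q) (u + u') (v + v') := by
  obtain ⟨P1, h1, p, h2, h3⟩ := h
  obtain ⟨Q1, g1, q, g2, g3⟩ := h'
  refine ⟨P1 * Q1, ?_, p * q, ?_, ?_⟩
  · rw [h1, g1, pow_add]; ring
  · rw [Polynomial.mul_coeff_zero, h2, g2, pow_add]; ring
  · rw [Polynomial.mul_coeff_zero]; exact mul_ne_zero h3 g3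

theorem Tm.shift {P : Polynomial (Polynomial k)} {u v : ℕ} (h : Tm P u v) (w : ℕ) :
    Tm (Polynomial.X ^ w * P) (w + u) v := by
  obtain ⟨P1, h1, p, h2, h3⟩ := h
  refine ⟨P1, ?_, p, h2, h3⟩
  rw [h1, pow_add]; ring

theorem Tm.coeff {P : Polynomial (Polynomial k)} {u v : ℕ} (h : Tm P u v) :
    (P.coeff u).coeff v ≠ 0 := by
  obtain ⟨P1, h1, p, h2, h3⟩ := h
  have e1 : P.coeff u = P1.coeff 0 := by
    rw [h1, Polynomial.coeff_X_pow_mul', if_pos le_rfl, Nat.sub_self]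
  rw [e1, h2, Polynomial.coeff_X_pow_mul', if_pos le_rfl, Nat.sub_self]
  exact h3

theorem Tm.coeff_lt {P : Polynomial (Polynomial k)} {u v : ℕ} (h : Tm P u v) {i j : ℕ}
    (hlt : i < u ∨ (i = u ∧ j < v)) : (P.coeff i).coeff j = 0 := by
  obtain ⟨P1, h1, p, h2, h3⟩ := h
  rcases hlt with h4 | ⟨h4, h5⟩
  · rw [h1, Polynomial.coeff_X_pow_mul', if_neg (by omega), Polynomial.coeff_zero]
  · have e1 : P.coeff i = P1.coeff 0 := by
      rw [h1, h4, Polynomial.coeff_X_pow_mul', if_pos le_rfl, Nat.sub_self]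
    rw [e1, h2, Polynomial.coeff_X_pow_mul', if_neg (by omega)]

theorem Tm.of {P : Polynomial (Polynomial k)} {u v : ℕ} (h1 : ∀ i < u, P.coeff i = 0)
    (h2 : ∃ p, P.coeff u = Polynomial.X ^ v * p ∧ p.coeff 0 ≠ 0) : Tm P u v := by
  obtain ⟨P1, hP1⟩ := Polynomial.X_pow_dvd_iff.2 h1
  obtain ⟨p, h3, h4⟩ := h2
  refine ⟨P1, hP1, p, ?_, h4⟩
  rw [← h3, hP1, Polynomial.coeff_X_pow_mul', if_pos le_rfl, Nat.sub_self]

/-- A combination of polynomials with different exponents is not zero. -/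
theorem Tm.sum_ne {ι : Type*} {s : Finset ι} (hs : s.Nonempty) {α : ι → k}
    (hα : ∀ i ∈ s, α i ≠ 0) {P : ι → Polynomial (Polynomial k)} {u v : ι → ℕ}
    (h : ∀ i ∈ s, Tm (P i) (u i) (v i))
    (hinj : ∀ i ∈ s, ∀ j ∈ s, u i = u j → v i = v j → i = j) :
    ∑ i ∈ s, Polynomial.C (Polynomial.C (α i)) * P i ≠ 0 := by
  obtain ⟨i0, hi0, hmin⟩ := Finset.exists_min_image s (fun i => toLex (u i, v i)) hs
  intro h0
  have h1 := congrArg (fun p => (Polynomial.coeff p (u i0)).coeff (v i0)) h0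
  simp only [Polynomial.finsetSum_coeff, Polynomial.coeff_C_mul, Polynomial.coeff_zero] at h1
  rw [Finset.sum_eq_single i0] at h1
  · exact mul_ne_zero (hα i0 hi0) (h i0 hi0).coeff h1
  · intro j hj hne
    rw [(h j hj).coeff_lt, mul_zero]
    have h2 := hmin j hj
    rw [Prod.Lex.toLex_le_toLex] at h2
    rcases h2 with h2 | ⟨h2, h3⟩
    · left; exact h2
    · right
      refine ⟨h2, lt_of_le_of_ne h3 fun h4 => hne (hinj j hj i0 hi0 h2.symm h4.symm)⟩
  · intro hh; exact absurd hi0 hh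

end tm

section ph

variable {k : Type*} [Field k] [CharZero k]

theorem W_one (E : ℕ) : W E 0 (1 : MvPolynomial (Fin 2) k) = X 0 ^ E := by
  have h : (1 : MvPolynomial (Fin 2) k) = monomial 0 1 := rfl
  have h2 : ee (E - ((0 : Fin 2 →₀ ℕ) 0 + 0 * (0 : Fin 2 →₀ ℕ) 1)) ((0 : Fin 2 →₀ ℕ) 1) =
      Finsupp.single 0 E := by
    apply fin2_ext
    · rw [ee_zero]; simp
    · rw [ee_one]; simp
  rw [h, W_monomial, X_pow_eq_monomial, h2]

theorem Le_one (E : ℕ) : Le E 0 (1 : MvPolynomial (Fin 2) k) := by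
  intro m hm
  rw [coeff_one] at hm
  split_ifs at hm with h
  · rw [← h]; simp
  · exact absurd rfl hm

theorem W_shift {D M : ℕ} (h : D ≤ M) {P : MvPolynomial (Fin 2) k} (hP : Le D 0 P) :
    W M 0 P = X 0 ^ (M - D) * W D 0 P := by
  have h1 := W_mul (Le_one (k := k) (M - D)) hP
  rw [one_mul, W_one, Nat.sub_add_cancel h] at h1
  exact h1

theorem Le_mul {D E : ℕ} {P Q : MvPolynomial (Fin 2) k} (hP : Le D 0 P) (hQ : Le E 0 Q) :
    Le (D + E) 0 (P * Q) := by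
  classical
  intro m hm
  rw [coeff_mul] at hm
  obtain ⟨x, hx, h1⟩ := Finset.exists_ne_zero_of_sum_ne_zero hm
  have h2 := hP _ (left_ne_zero_of_mul h1)
  have h3 := hQ _ (right_ne_zero_of_mul h1)
  have h4 := Finset.HasAntidiagonal.mem_antidiagonal.1 hx
  rw [← h4, Finsupp.add_apply, Finsupp.add_apply]
  omega

/-- The coordinates near a point of a divisor at infinity. -/
noncomputable def Ph (S : MvPolynomial (Fin 2) k →ₐ[k] MvPolynomial (Fin 2) k) (ρ σ : ℕ) (z : k)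
    (D : ℕ) (P : MvPolynomial (Fin 2) k) : Polynomial (Polynomial k) :=
  Polynomial.mapRingHom (Polynomial.compRingHom (Polynomial.X + Polynomial.C z))
    (N ρ σ (S (W D 0 P)))

variable {S : MvPolynomial (Fin 2) k →ₐ[k] MvPolynomial (Fin 2) k} {ρ σ : ℕ} {z : k}

theorem Ph_mul {D E : ℕ} {P Q : MvPolynomial (Fin 2) k} (hP : Le D 0 P) (hQ : Le E 0 Q) :
    Ph S ρ σ z (D + E) (P * Q) = Ph S ρ σ z D P * Ph S ρ σ z E Q := by
  unfold Ph
  rw [W_mul hP hQ, map_mul, map_mul, map_mul]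

theorem Ph_shift {L : ℕ} (hS : S (X 0) = X 0 ^ L) {D M : ℕ} (h : D ≤ M)
    {P : MvPolynomial (Fin 2) k} (hP : Le D 0 P) :
    Ph S ρ σ z M P = Polynomial.X ^ (ρ * L * (M - D)) * Ph S ρ σ z D P := by
  unfold Ph
  rw [W_shift h hP, map_mul, map_pow, hS, map_mul, map_pow, map_pow, N_X0, map_mul, map_pow,
    map_pow, map_pow, Polynomial.coe_mapRingHom, Polynomial.map_X, ← pow_mul, ← pow_mul, mul_assoc]

theorem Ph_C_mul (D : ℕ) (c : k) (P : MvPolynomial (Fin 2) k) :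
    Ph S ρ σ z D (C c * P) = Polynomial.C (Polynomial.C c) * Ph S ρ σ z D P := by
  unfold Ph
  rw [C_mul', map_smul, map_smul, map_smul, Polynomial.coe_mapRingHom]
  have : c • (N ρ σ (S (W D 0 P))) = Polynomial.C (Polynomial.C c) * N ρ σ (S (W D 0 P)) := by
    ext n m
    rw [Polynomial.coeff_smul, Polynomial.coeff_smul, Polynomial.coeff_C_mul,
      Polynomial.coeff_C_mul, smul_eq_mul]
  rw [this, Polynomial.map_mul, Polynomial.map_C]
  simp

theorem Ph_sum {ι : Type*} (s : Finset ι) (D : ℕ) (P : ι → MvPolynomial (Fin 2) k) :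
    Ph S ρ σ z D (∑ i ∈ s, P i) = ∑ i ∈ s, Ph S ρ σ z D (P i) := by
  unfold Ph
  rw [map_sum, map_sum, map_sum, map_sum]

/-- The pole order along the divisor is `x` and the order of the leading part at the point is
`v`. -/
def Vl (S : MvPolynomial (Fin 2) k →ₐ[k] MvPolynomial (Fin 2) k) (L ρ σ : ℕ) (z : k)
    (P : MvPolynomial (Fin 2) k) (x : ℤ) (v : ℕ) : Prop :=
  ∃ D : ℕ, Le D 0 P ∧ ∃ u, Tm (Ph S ρ σ z D P) u v ∧ x = ρ * L * D - u

variable {L : ℕ}

theorem Vl.mul {P Q : MvPolynomial (Fin 2) k} {x y : ℤ} {v w : ℕ} (hP : Vl S L ρ σ z P x v)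
    (hQ : Vl S L ρ σ z Q y w) : Vl S L ρ σ z (P * Q) (x + y) (v + w) := by
  obtain ⟨D, h1, u, h2, h3⟩ := hP
  obtain ⟨E, g1, u', g2, g3⟩ := hQ
  refine ⟨D + E, Le_mul h1 g1, u + u', ?_, ?_⟩
  · rw [Ph_mul h1 g1]; exact h2.mul g2
  · rw [h3, g3]; push_cast; ring

theorem Vl.one : Vl S L ρ σ z 1 0 0 := by
  refine ⟨0, Le_one 0, 0, ?_, by simp⟩
  unfold Ph
  rw [W_one, pow_zero, map_one, map_one, map_one]
  exact ⟨1, by simp, 1, by simp, by simp⟩

theorem Vl.pow {P : MvPolynomial (Fin 2) k} {x : ℤ} {v : ℕ} (hP : Vl S L ρ σ z P x v) (n : ℕ) :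
    Vl S L ρ σ z (P ^ n) (n * x) (n * v) := by
  induction n with
  | zero => simpa using Vl.one
  | succ n ih =>
    have h1 := ih.mul hP
    have e1 : (n : ℤ) * x + x = ((n + 1 : ℕ) : ℤ) * x := by push_cast; ring
    have e2 : n * v + v = (n + 1) * v := by ring
    rw [e1, e2, ← pow_succ] at h1
    exact h1

/-- Independence of polynomials with different values. -/
theorem Vl.sum_ne (hS : S (X 0) = X 0 ^ L) {ι : Type*} {s : Finset ι} (hs : s.Nonempty)
    {α : ι → k} (hα : ∀ i ∈ s, α i ≠ 0) {P : ι → MvPolynomial (Fin 2) k} {x : ι → ℤ} {v : ι → ℕ}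
    (h : ∀ i, Vl S L ρ σ z (P i) (x i) (v i))
    (hinj : ∀ i ∈ s, ∀ j ∈ s, x i = x j → v i = v j → i = j) :
    ∑ i ∈ s, C (α i) * P i ≠ 0 := by
  choose D h1 u h2 h3 using h
  intro h0
  obtain ⟨M, hM⟩ : ∃ M, ∀ i ∈ s, D i ≤ M := ⟨s.sup D, fun i hi => Finset.le_sup hi⟩
  have h4 : ∀ i ∈ s, Ph S ρ σ z M (P i) = Polynomial.X ^ (ρ * L * (M - D i)) *
      Ph S ρ σ z (D i) (P i) := fun i hi => Ph_shift hS (hM i hi) (h1 i)
  have h5 : ∀ i ∈ s, Tm (Ph S ρ σ z M (P i)) (ρ * L * (M - D i) + u i) (v i) := by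
    intro i hi
    rw [h4 i hi]
    exact (h2 i).shift _
  refine Tm.sum_ne hs hα h5 ?_ ?_
  · intro i hi j hj e1 e2
    refine hinj i hi j hj ?_ e2
    rw [h3 i, h3 j]
    have g1 := hM i hi
    have g2 := hM j hj
    zify [g1, g2] at e1
    linarith
  · have h6 := congrArg (Ph S ρ σ z M) h0
    rw [Ph_sum] at h6
    simp only [Ph_C_mul] at h6
    rw [h6]
    unfold Ph
    simp

end ph

end Pool.Agent.P8H36.JT
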